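import Mathlib
import Pool.Agent.N54.LP.Win

set_option autoImplicit false

/-!
# Small complex perturbations
-/

namespace Pool.Agent.N54.LP

open Finset Filter Topology MeasureTheory
open Pool.Agent.W66C
open Pool.Agent.H447R2.ML (Loc C1)

/-- `R` has the derivatives `R1`, `R2` on `I`, the second one continuous -/
structure D2 (I : Set ℝ) (R R1 R2 : ℝ → ℂ) : Prop where
  d1 : ∀ t ∈ I, HasDerivAt R (R1 t) t
  d2 : ∀ t ∈ I, HasDerivAt R1 (R2 t) t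
  c2 : ContinuousOn R2 I

lemma D2.c0 {I : Set ℝ} {R R1 R2 : ℝ → ℂ} (h : D2 I R R1 R2) : ContinuousOn R I :=
  fun t ht => (h.d1 t ht).continuousAt.continuousWithinAt

lemma D2.c1 {I : Set ℝ} {R R1 R2 : ℝ → ℂ} (h : D2 I R R1 R2) : ContinuousOn R1 I :=
  fun t ht => (h.d2 t ht).continuousAt.continuousWithinAt

lemma D2.of_contDiffOn {U I : Set ℝ} (hU : IsOpen U) (hI : I ⊆ U) {R : ℝ → ℂ}
    (h : ContDiffOn ℝ 2 R U) : D2 I R (deriv R) (deriv (deriv R)) := by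
  have h1 : ContDiffOn ℝ 1 (deriv R) U := h.deriv_of_isOpen hU (by norm_num)
  have h2 : ContDiffOn ℝ 0 (deriv (deriv R)) U := h1.deriv_of_isOpen hU (by norm_num)
  refine ⟨fun t ht => ?_, fun t ht => ?_, h2.continuousOn.mono hI⟩
  · exact ((h.differentiableOn (by norm_num)) t (hI ht)).differentiableAt
      (hU.mem_nhds (hI ht)) |>.hasDerivAt
  · exact ((h1.differentiableOn (by norm_num)) t (hI ht)).differentiableAt
      (hU.mem_nhds (hI ht)) |>.hasDerivAt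

lemma D2.sum {ι : Type*} {J : Finset ι} {I : Set ℝ} {R R1 R2 : ι → ℝ → ℂ}
    (h : ∀ j ∈ J, D2 I (R j) (R1 j) (R2 j)) :
    D2 I (fun t => ∑ j ∈ J, R j t) (fun t => ∑ j ∈ J, R1 j t) (fun t => ∑ j ∈ J, R2 j t) := by
  refine ⟨fun t ht => ?_, fun t ht => ?_, ?_⟩
  · exact HasDerivAt.fun_sum fun j hj => (h j hj).d1 t ht
  · exact HasDerivAt.fun_sum fun j hj => (h j hj).d2 t ht
  · exact continuousOn_finsetSum _ fun j hj => (h j hj).c2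

/-- the derivative of `R t * ρ t ^ p` -/
noncomputable def z1 (R R1 ρ ρ1 : ℝ → ℂ) (p : ℕ) (t : ℝ) : ℂ :=
  R1 t * ρ t ^ p + R t * ((p : ℂ) * ρ t ^ (p - 1) * ρ1 t)

/-- the second derivative of `R t * ρ t ^ p` -/
noncomputable def z2 (R R1 R2 ρ ρ1 ρ2 : ℝ → ℂ) (p : ℕ) (t : ℝ) : ℂ :=
  (R2 t * ρ t ^ p + R1 t * ((p : ℂ) * ρ t ^ (p - 1) * ρ1 t)) +
    (R1 t * ((p : ℂ) * ρ t ^ (p - 1) * ρ1 t) +
      R t * (((p : ℂ) * (((p - 1 : ℕ) : ℂ) * ρ t ^ (p - 2) * ρ1 t)) * ρ1 t +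
        (p : ℂ) * ρ t ^ (p - 1) * ρ2 t))

/-- the perturbation `R t * ρ t ^ p` and its derivatives are eventually small on compact sets -/
lemma small_c {a0 a1 : ℝ} (ha : a0 ≤ a1) {R R1 R2 ρ ρ1 ρ2 : ℝ → ℂ}
    (hR : D2 (Set.Icc a0 a1) R R1 R2) (hρ : D2 (Set.Icc a0 a1) ρ ρ1 ρ2)
    (hρ1 : ∀ t ∈ Set.Icc a0 a1, ‖ρ t‖ < 1) {ε : ℝ} (hε : 0 < ε) :
    ∀ᶠ p : ℕ in atTop,
      D2 (Set.Icc a0 a1) (fun t => R t * ρ t ^ p) (z1 R R1 ρ ρ1 p) (z2 R R1 R2 ρ ρ1 ρ2 p) ∧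
      (∀ t ∈ Set.Icc a0 a1, ‖R t * ρ t ^ p‖ ≤ ε) ∧
      (∀ t ∈ Set.Icc a0 a1, ‖z1 R R1 ρ ρ1 p t‖ ≤ ε) ∧
      (∀ t ∈ Set.Icc a0 a1, ‖z2 R R1 R2 ρ ρ1 ρ2 p t‖ ≤ ε) := by
  obtain ⟨K0, hK0⟩ := isCompact_Icc.exists_bound_of_continuousOn (s := Set.Icc a0 a1) (f := R) hR.c0
  obtain ⟨K1, hK1⟩ := isCompact_Icc.exists_bound_of_continuousOn (s := Set.Icc a0 a1) (f := R1) hR.c1
  obtain ⟨K2, hK2⟩ := isCompact_Icc.exists_bound_of_continuousOn (s := Set.Icc a0 a1) (f := R2) hR.c2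
  obtain ⟨K3, hK3⟩ := isCompact_Icc.exists_bound_of_continuousOn (s := Set.Icc a0 a1) (f := ρ1) hρ.c1
  obtain ⟨K4, hK4⟩ := isCompact_Icc.exists_bound_of_continuousOn (s := Set.Icc a0 a1) (f := ρ2) hρ.c2
  have haI : a0 ∈ Set.Icc a0 a1 := ⟨le_rfl, ha⟩
  have k0 : 0 ≤ K0 := (norm_nonneg _).trans (hK0 a0 haI)
  have k1 : 0 ≤ K1 := (norm_nonneg _).trans (hK1 a0 haI)
  have k2 : 0 ≤ K2 := (norm_nonneg _).trans (hK2 a0 haI)
  have k3 : 0 ≤ K3 := (norm_nonneg _).trans (hK3 a0 haI)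
  have k4 : 0 ≤ K4 := (norm_nonneg _).trans (hK4 a0 haI)
  -- a uniform bound for `‖ρ‖`
  obtain ⟨t0, ht0, hmax⟩ := isCompact_Icc.exists_isMaxOn (s := Set.Icc a0 a1) ⟨a0, haI⟩
    (f := fun t => ‖ρ t‖) hρ.c0.norm
  set r := max ‖ρ t0‖ (1 / 2) with hr
  have hr0 : 0 < r := lt_of_lt_of_le (by norm_num) (le_max_right _ _)
  have hr1 : r < 1 := max_lt (hρ1 t0 ht0) (by norm_num)
  have hρr : ∀ t ∈ Set.Icc a0 a1, ‖ρ t‖ ≤ r := fun t ht => (hmax ht).trans (le_max_left _ _)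
  set K := K0 + K2 + 2 * (K1 * K3) + K0 * (K3 * K3) + K0 * K4 + K1 + K0 * K3 with hK
  have hKn : 0 ≤ K := by positivity
  have hlim : Tendsto (fun p : ℕ => (K / r ^ 2) * ((p : ℝ) ^ 2 * r ^ p)) atTop (𝓝 0) := by
    have h1 := tendsto_pow_const_mul_const_pow_of_abs_lt_one 2 (r := r)
      (by rw [abs_of_pos hr0]; exact hr1)
    have h2 := h1.const_mul (K / r ^ 2)
    rwa [mul_zero] at h2
  filter_upwards [hlim.eventually_le_const hε, eventually_ge_atTop 2] with p hp hp2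
  obtain ⟨n, rfl⟩ : ∃ n, p = n + 2 := ⟨p - 2, by omega⟩
  have hpr : (2 : ℝ) ≤ ((n + 2 : ℕ) : ℝ) := by exact_mod_cast hp2
  set q : ℝ := ((n + 2 : ℕ) : ℝ) with hq
  set qc : ℂ := ((n + 2 : ℕ) : ℂ) with hqc
  have hqcn : ‖qc‖ = q := by rw [hqc, hq, Complex.norm_natCast]
  have hmain : K * (q ^ 2 * r ^ n) ≤ ε := by
    refine le_trans (le_of_eq ?_) hp
    rw [pow_add]
    field_simp
  -- bounds for the powers
  have hpow : ∀ t ∈ Set.Icc a0 a1, ∀ m : ℕ, n ≤ m → ‖ρ t ^ m‖ ≤ r ^ n := by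
    intro t ht m hm
    rw [norm_pow]
    calc ‖ρ t‖ ^ m ≤ r ^ m := pow_le_pow_left₀ (norm_nonneg _) (hρr t ht) _
      _ ≤ r ^ n := pow_le_pow_of_le_one hr0.le hr1.le hm
  have hrn : 0 ≤ r ^ n := by positivity
  have hq1 : 1 ≤ q := by linarith
  have hqq : q ≤ q ^ 2 := by nlinarith
  have h1q : 1 ≤ q ^ 2 := by nlinarith
  -- generic estimate
  have hterm : ∀ (C : ℝ) (x y : ℂ), 0 ≤ C → ‖x‖ ≤ C → ‖y‖ ≤ q ^ 2 * r ^ n →
      ‖x * y‖ ≤ C * (q ^ 2 * r ^ n) := by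
    intro C x y hC hx hy
    rw [norm_mul]
    exact mul_le_mul hx hy (norm_nonneg _) hC
  have hy0 : ∀ t ∈ Set.Icc a0 a1, ‖ρ t ^ (n + 2)‖ ≤ q ^ 2 * r ^ n := fun t ht => by
    refine (hpow t ht _ (by omega)).trans ?_
    nlinarith
  have hy1 : ∀ t ∈ Set.Icc a0 a1, ‖qc * ρ t ^ (n + 1)‖ ≤ q ^ 2 * r ^ n := fun t ht => by
    rw [norm_mul, hqcn]
    exact mul_le_mul hqq (hpow t ht _ (by omega)) (norm_nonneg _) (by positivity)
  have hy2 : ∀ t ∈ Set.Icc a0 a1, ‖qc * (((n + 1 : ℕ) : ℂ) * ρ t ^ n)‖ ≤ q ^ 2 * r ^ n := fun t ht => by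
    have e1 : (((n + 1 : ℕ) : ℝ)) ≤ q := by rw [hq]; push_cast; linarith
    rw [norm_mul, norm_mul, hqcn, Complex.norm_natCast, ← mul_assoc, sq]
    exact mul_le_mul (mul_le_mul_of_nonneg_left e1 (by linarith)) (hpow t ht _ le_rfl)
      (norm_nonneg _) (by positivity)
  have ez1 : z1 R R1 ρ ρ1 (n + 2) =
      fun t => R1 t * ρ t ^ (n + 2) + R t * (qc * ρ t ^ (n + 1) * ρ1 t) := rfl
  have ez2 : z2 R R1 R2 ρ ρ1 ρ2 (n + 2) =
      fun t => (R2 t * ρ t ^ (n + 2) + R1 t * (qc * ρ t ^ (n + 1) * ρ1 t)) +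
      (R1 t * (qc * ρ t ^ (n + 1) * ρ1 t) +
        R t * ((qc * (((n + 1 : ℕ) : ℂ) * ρ t ^ n * ρ1 t)) * ρ1 t + qc * ρ t ^ (n + 1) * ρ2 t)) := rfl
  rw [ez1, ez2]
  refine ⟨⟨fun t ht => ?_, fun t ht => ?_, ?_⟩, fun t ht => ?_, fun t ht => ?_, fun t ht => ?_⟩
  · have h1 : HasDerivAt (fun t => ρ t ^ (n + 2)) (qc * ρ t ^ (n + 1) * ρ1 t) t := by
      have := (hρ.d1 t ht).fun_pow (n + 2)
      simpa [hqc] using this
    exact (hR.d1 t ht).mul h1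
  · have h1 : HasDerivAt (fun t => ρ t ^ (n + 2)) (qc * ρ t ^ (n + 1) * ρ1 t) t := by
      have := (hρ.d1 t ht).fun_pow (n + 2)
      simpa [hqc] using this
    have h2 : HasDerivAt (fun t => ρ t ^ (n + 1)) (((n + 1 : ℕ) : ℂ) * ρ t ^ n * ρ1 t) t := by
      have := (hρ.d1 t ht).fun_pow (n + 1)
      simpa using this
    exact ((hR.d2 t ht).mul h1).add ((hR.d1 t ht).mul ((h2.const_mul qc).mul (hρ.d2 t ht)))
  · have f0 := hR.c0
    have f1 := hR.c1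
    have f2 := hR.c2
    have g0 := hρ.c0
    have g1 := hρ.c1
    have g2 := hρ.c2
    fun_prop
  · refine (hterm K0 _ _ k0 (hK0 t ht) (hy0 t ht)).trans (le_trans ?_ hmain)
    refine mul_le_mul_of_nonneg_right ?_ (by positivity)
    have g1 : 0 ≤ K1 * K3 := by positivity
    have g2 : 0 ≤ K0 * (K3 * K3) := by positivity
    have g3 : 0 ≤ K0 * K4 := by positivity
    have g4 : 0 ≤ K0 * K3 := by positivity
    rw [hK]; linarith
  · have e1 : R1 t * ρ t ^ (n + 2) + R t * (qc * ρ t ^ (n + 1) * ρ1 t) =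
        R1 t * ρ t ^ (n + 2) + (R t * ρ1 t) * (qc * ρ t ^ (n + 1)) := by ring
    change ‖R1 t * ρ t ^ (n + 2) + R t * (qc * ρ t ^ (n + 1) * ρ1 t)‖ ≤ _
    rw [e1]
    have f1 := hterm K1 _ _ k1 (hK1 t ht) (hy0 t ht)
    have f2 := hterm (K0 * K3) (R t * ρ1 t) _ (by positivity) (by
      rw [norm_mul]; exact mul_le_mul (hK0 t ht) (hK3 t ht) (norm_nonneg _) k0) (hy1 t ht)
    refine (norm_add_le _ _).trans ((add_le_add f1 f2).trans (le_trans ?_ hmain))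
    rw [← add_mul]
    refine mul_le_mul_of_nonneg_right ?_ (by positivity)
    have g1 : 0 ≤ K1 * K3 := by positivity
    have g2 : 0 ≤ K0 * (K3 * K3) := by positivity
    have g3 : 0 ≤ K0 * K4 := by positivity
    rw [hK]; linarith
  · have e1 : (R2 t * ρ t ^ (n + 2) + R1 t * (qc * ρ t ^ (n + 1) * ρ1 t)) +
      (R1 t * (qc * ρ t ^ (n + 1) * ρ1 t) +
        R t * ((qc * (((n + 1 : ℕ) : ℂ) * ρ t ^ n * ρ1 t)) * ρ1 t + qc * ρ t ^ (n + 1) * ρ2 t)) =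
        R2 t * ρ t ^ (n + 2) + (2 * (R1 t * ρ1 t)) * (qc * ρ t ^ (n + 1)) +
        (R t * (ρ1 t * ρ1 t)) * (qc * (((n + 1 : ℕ) : ℂ) * ρ t ^ n)) +
        (R t * ρ2 t) * (qc * ρ t ^ (n + 1)) := by ring
    change ‖(R2 t * ρ t ^ (n + 2) + R1 t * (qc * ρ t ^ (n + 1) * ρ1 t)) +
      (R1 t * (qc * ρ t ^ (n + 1) * ρ1 t) +
        R t * ((qc * (((n + 1 : ℕ) : ℂ) * ρ t ^ n * ρ1 t)) * ρ1 t + qc * ρ t ^ (n + 1) * ρ2 t))‖ ≤ _
    rw [e1]
    have f1 := hterm K2 _ _ k2 (hK2 t ht) (hy0 t ht)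
    have f2 := hterm (2 * (K1 * K3)) (2 * (R1 t * ρ1 t)) _ (by positivity) (by
      rw [norm_mul, norm_mul, Complex.norm_ofNat]
      exact mul_le_mul_of_nonneg_left (mul_le_mul (hK1 t ht) (hK3 t ht) (norm_nonneg _) k1)
        (by norm_num)) (hy1 t ht)
    have f3 := hterm (K0 * (K3 * K3)) (R t * (ρ1 t * ρ1 t)) _ (by positivity) (by
      rw [norm_mul, norm_mul]
      exact mul_le_mul (hK0 t ht) (mul_le_mul (hK3 t ht) (hK3 t ht) (norm_nonneg _) k3)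
        (by positivity) k0) (hy2 t ht)
    have f4 := hterm (K0 * K4) (R t * ρ2 t) _ (by positivity) (by
      rw [norm_mul]; exact mul_le_mul (hK0 t ht) (hK4 t ht) (norm_nonneg _) k0) (hy1 t ht)
    refine (norm_add_le _ _).trans ((add_le_add ((norm_add_le _ _).trans
      (add_le_add ((norm_add_le _ _).trans (add_le_add f1 f2)) f3)) f4).trans (le_trans ?_ hmain))
    rw [← add_mul, ← add_mul, ← add_mul]
    refine mul_le_mul_of_nonneg_right ?_ (by positivity)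
    have g4 : 0 ≤ K0 * K3 := by positivity
    rw [hK]; linarith

/-- a finite sum of perturbations is eventually small -/
lemma small_sum {ι : Type*} (J : Finset ι) {a0 a1 : ℝ} (ha : a0 ≤ a1)
    {R R1 R2 ρ ρ1 ρ2 : ι → ℝ → ℂ}
    (hR : ∀ j ∈ J, D2 (Set.Icc a0 a1) (R j) (R1 j) (R2 j))
    (hρ : ∀ j ∈ J, D2 (Set.Icc a0 a1) (ρ j) (ρ1 j) (ρ2 j))
    (hρ1 : ∀ j ∈ J, ∀ t ∈ Set.Icc a0 a1, ‖ρ j t‖ < 1) {ε : ℝ} (hε : 0 < ε) :
    ∀ᶠ p : ℕ in atTop, ∃ Z1 Z2 : ℝ → ℂ,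
      D2 (Set.Icc a0 a1) (fun t => ∑ j ∈ J, R j t * ρ j t ^ p) Z1 Z2 ∧
      (∀ t ∈ Set.Icc a0 a1, ‖∑ j ∈ J, R j t * ρ j t ^ p‖ ≤ ε) ∧
      (∀ t ∈ Set.Icc a0 a1, ‖Z1 t‖ ≤ ε) ∧ (∀ t ∈ Set.Icc a0 a1, ‖Z2 t‖ ≤ ε) := by
  have hN : (0 : ℝ) < J.card + 1 := by positivity
  have h1 : ∀ᶠ p : ℕ in atTop, ∀ j ∈ J,
      D2 (Set.Icc a0 a1) (fun t => R j t * ρ j t ^ p) (z1 (R j) (R1 j) (ρ j) (ρ1 j) p)
        (z2 (R j) (R1 j) (R2 j) (ρ j) (ρ1 j) (ρ2 j) p) ∧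
      (∀ t ∈ Set.Icc a0 a1, ‖R j t * ρ j t ^ p‖ ≤ ε / (J.card + 1)) ∧
      (∀ t ∈ Set.Icc a0 a1, ‖z1 (R j) (R1 j) (ρ j) (ρ1 j) p t‖ ≤ ε / (J.card + 1)) ∧
      (∀ t ∈ Set.Icc a0 a1,
        ‖z2 (R j) (R1 j) (R2 j) (ρ j) (ρ1 j) (ρ2 j) p t‖ ≤ ε / (J.card + 1)) := by
    rw [Filter.eventually_all_finset]
    intro j hj
    exact small_c ha (hR j hj) (hρ j hj) (hρ1 j hj) (by positivity)
  filter_upwards [h1] with p hp
  have hs : ∀ F : ι → ℝ → ℂ, (∀ j ∈ J, ∀ t ∈ Set.Icc a0 a1, ‖F j t‖ ≤ ε / (J.card + 1)) →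
      ∀ t ∈ Set.Icc a0 a1, ‖∑ j ∈ J, F j t‖ ≤ ε := by
    intro F hF t ht
    refine (norm_sum_le _ _).trans ((Finset.sum_le_sum fun j hj => hF j hj t ht).trans ?_)
    rw [Finset.sum_const, nsmul_eq_mul, mul_div_assoc', div_le_iff₀ hN]
    nlinarith
  exact ⟨fun t => ∑ j ∈ J, z1 (R j) (R1 j) (ρ j) (ρ1 j) p t,
    fun t => ∑ j ∈ J, z2 (R j) (R1 j) (R2 j) (ρ j) (ρ1 j) (ρ2 j) p t,
    D2.sum fun j hj => (hp j hj).1, hs _ fun j hj => (hp j hj).2.1,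
    hs _ fun j hj => (hp j hj).2.2.1, hs _ fun j hj => (hp j hj).2.2.2⟩

/-- the hypotheses on a phase function `p t + log ‖1 + Z t‖ + H t` with small complex `Z` -/
lemma cur_of_Z {a0 a1 M : ℝ} {p : ℕ} {Z Z1 Z2 : ℝ → ℂ} {H H' H'' : ℝ → ℝ}
    (hZ : D2 (Set.Icc a0 a1) Z Z1 Z2)
    (b0 : ∀ t ∈ Set.Icc a0 a1, ‖Z t‖ ≤ 1 / 16) (b1 : ∀ t ∈ Set.Icc a0 a1, ‖Z1 t‖ ≤ 1 / 16)
    (b2 : ∀ t ∈ Set.Icc a0 a1, ‖Z2 t‖ ≤ 1 / 16)
    (hH : ∀ t ∈ Set.Icc a0 a1, HasDerivAt H (H' t) t)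
    (hH' : ∀ t ∈ Set.Icc a0 a1, HasDerivAt H' (H'' t) t)
    (hH'' : ContinuousOn H'' (Set.Icc a0 a1))
    (m0 : ∀ t ∈ Set.Icc a0 a1, |H t| ≤ M) (m1 : ∀ t ∈ Set.Icc a0 a1, |H' t| ≤ M)
    (m2 : ∀ t ∈ Set.Icc a0 a1, |H'' t| ≤ M) :
    Cur a0 a1 (1 + M) H' p (fun t => p * t + Real.log ‖1 + Z t‖ + H t)
      (fun t => p + (Z1 t / (1 + Z t)).re + H' t)
      (fun t => ((Z2 t * (1 + Z t) - Z1 t * Z1 t) / (1 + Z t) ^ 2).re + H'' t) := by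
  have hden : ∀ t ∈ Set.Icc a0 a1, 15 / 16 ≤ ‖1 + Z t‖ ∧ ‖1 + Z t‖ ≤ 17 / 16 := by
    intro t ht
    have h1 := b0 t ht
    constructor
    · have h2 : ‖(1 : ℂ)‖ ≤ ‖1 + Z t‖ + ‖Z t‖ := by
        calc ‖(1 : ℂ)‖ = ‖(1 + Z t) - Z t‖ := by congr 1; ring
          _ ≤ _ := norm_sub_le _ _
      rw [norm_one] at h2
      linarith
    · refine (norm_add_le _ _).trans ?_
      rw [norm_one]; linarith
  have hne : ∀ t ∈ Set.Icc a0 a1, 1 + Z t ≠ 0 := fun t ht h => by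
    have := (hden t ht).1
    rw [h, norm_zero] at this
    linarith
  have hslit : ∀ t ∈ Set.Icc a0 a1, 1 + Z t ∈ Complex.slitPlane := by
    intro t ht
    rw [Complex.mem_slitPlane_iff]
    left
    have h1 := (Complex.abs_re_le_norm (Z t)).trans (b0 t ht)
    have h2 := abs_le.1 h1
    simp only [Complex.add_re, Complex.one_re]
    linarith
  have hfrac : ∀ t ∈ Set.Icc a0 a1, |(Z1 t / (1 + Z t)).re| ≤ 1 / 8 := by
    intro t ht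
    refine (Complex.abs_re_le_norm _).trans ?_
    have h1 := (hden t ht).1
    rw [norm_div, div_le_iff₀ (by linarith)]
    have := b1 t ht
    linarith
  have hlin : ∀ t : ℝ, HasDerivAt (fun t : ℝ => (p : ℝ) * t) p t := fun t => by
    simpa using (hasDerivAt_id t).const_mul (p : ℝ)
  have hre : ∀ {f : ℝ → ℂ} {f' : ℂ} {t : ℝ}, HasDerivAt f f' t →
      HasDerivAt (fun t => (f t).re) f'.re t := by
    intro f f' t h
    exact (Complex.reCLM.hasFDerivAt (x := f t)).comp_hasDerivAt t h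
  refine ⟨⟨fun t ht => ?_, fun t ht => ?_, fun t ht => ?_⟩, fun t ht => ?_, ?_, fun t ht => ?_,
    fun t ht => ?_⟩
  · obtain ⟨g1, g2⟩ := hden t ht
    have h2 : |Real.log ‖1 + Z t‖| ≤ 1 := by
      rw [abs_le]
      constructor
      · have h3 := Real.one_sub_inv_le_log_of_pos (show 0 < ‖1 + Z t‖ by linarith)
        have h4 : (‖1 + Z t‖)⁻¹ ≤ 2 := by
          rw [inv_le_comm₀ (by linarith) (by norm_num)]; linarith
        linarith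
      · have h3 := Real.log_le_sub_one_of_pos (show 0 < ‖1 + Z t‖ by linarith)
        linarith
    have h3 := abs_le.1 (m0 t ht)
    have h4 := abs_le.1 h2
    change |p * t + Real.log ‖1 + Z t‖ + H t - p * t| ≤ _
    rw [abs_le]
    constructor <;> linarith
  · have h3 : HasDerivAt (fun t => 1 + Z t) (Z1 t) t := (hZ.d1 t ht).const_add 1
    have h4 := hre (h3.clog_real (hslit t ht))
    have h5 : (fun t => (Complex.log (1 + Z t)).re) = fun t => Real.log ‖1 + Z t‖ := by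
      funext t
      exact Complex.log_re _
    rw [h5] at h4
    exact ((hlin t).add h4).add (hH t ht)
  · have h2 := abs_le.1 (hfrac t ht)
    have h3 := abs_le.1 (m1 t ht)
    change |p + (Z1 t / (1 + Z t)).re + H' t - p| ≤ _
    rw [abs_le]
    constructor <;> linarith
  · have h4 : HasDerivAt (fun t => 1 + Z t) (Z1 t) t := (hZ.d1 t ht).const_add 1
    have h3 := (((hre ((hZ.d2 t ht).div h4 (hne t ht))).const_add (p : ℝ)).add (hH' t ht))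
    exact h3
  · refine ContinuousOn.add ?_ hH''
    have c0 := hZ.c0
    have c1 := hZ.c1
    have c2 := hZ.c2
    refine Complex.continuous_re.comp_continuousOn (ContinuousOn.div (by fun_prop) (by fun_prop)
      fun t ht => pow_ne_zero 2 (hne t ht))
  · have e3 : p + (Z1 t / (1 + Z t)).re + H' t - p - H' t = (Z1 t / (1 + Z t)).re := by ring
    rw [e3]
    exact hfrac t ht
  · have h2 : |((Z2 t * (1 + Z t) - Z1 t * Z1 t) / (1 + Z t) ^ 2).re| ≤ 1 := by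
      obtain ⟨h3, h4⟩ := hden t ht
      refine (Complex.abs_re_le_norm _).trans ?_
      have h5 : 1 / 4 ≤ ‖(1 + Z t) ^ 2‖ := by
        rw [norm_pow]
        nlinarith
      rw [norm_div, div_le_iff₀ (by linarith)]
      have h6 : ‖Z2 t * (1 + Z t) - Z1 t * Z1 t‖ ≤ 1 / 4 := by
        have h7 := b2 t ht
        have h8 := b1 t ht
        have h9 : ‖Z2 t * (1 + Z t)‖ ≤ 1 / 16 * (17 / 16) := by
          rw [norm_mul]
          exact mul_le_mul h7 h4 (norm_nonneg _) (by norm_num)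
        have h10 : ‖Z1 t * Z1 t‖ ≤ 1 / 16 * (1 / 16) := by
          rw [norm_mul]
          exact mul_le_mul h8 h8 (norm_nonneg _) (by norm_num)
        refine (norm_sub_le _ _).trans ?_
        linarith
      linarith
    refine (abs_add_le _ _).trans ?_
    linarith [m2 t ht]

end Pool.Agent.N54.LP
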