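import Mathlib
import Pool.Agent.N54.LP.Small

set_option autoImplicit false

/-!
# The statements along `C ^ 2` curves of exponential sums with a dominating term
-/

namespace Pool.Agent.N54.LP

open Finset Filter Topology MeasureTheory
open Pool.Agent.TH888.R
open Pool.Agent.W66C

/-- the values of the exponential sum -/
noncomputable def sv {ι : Type*} (J : Finset ι) (A0 μ0 : ℝ → ℂ) (A μ : ι → ℝ → ℂ) (x : ℝ) (p : ℕ) : ℝ :=
  ‖A0 x * μ0 x ^ p + ∑ j ∈ J, A j x * μ j x ^ p‖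

theorem pt_loc {ι : Type*} (J : Finset ι) {U : Set ℝ} (hU : IsOpen U) {A0 μ0 : ℝ → ℂ}
    {A μ : ι → ℝ → ℂ} (hA0 : ContDiffOn ℝ 2 A0 U) (hμ0 : ContDiffOn ℝ 2 μ0 U)
    (hA : ∀ j ∈ J, ContDiffOn ℝ 2 (A j) U) (hμ : ∀ j ∈ J, ContDiffOn ℝ 2 (μ j) U)
    (hne : ∀ x ∈ U, A0 x ≠ 0) (hdom : ∀ x ∈ U, ∀ j ∈ J, ‖μ j x‖ < ‖μ0 x‖)
    (hpos : ∀ x ∈ U, μ0 x ≠ 0) {x0 : ℝ}
    (hx0 : x0 ∈ U) (h1 : 1 < ‖μ0 x0‖) (hder : deriv (fun x => Real.log ‖μ0 x‖) x0 ≠ 0) (S : Set ℕ) :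
    ∃ N ∈ 𝓝 x0, ∀ᵐ x : ℝ, x ∈ N → Pt (fun p => ⌊sv J A0 μ0 A μ x p⌋₊)
      (Real.exp Real.eulerMascheroniConstant / Real.log ‖μ0 x‖) S := by
  set τ : ℝ → ℝ := fun x => Real.log ‖μ0 x‖ with hτ
  have hn : ∀ x ∈ U, 0 < ‖μ0 x‖ := fun x hx => norm_pos_iff.2 (hpos x hx)
  have hτU : ContDiffOn ℝ 2 τ U := (hμ0.norm ℝ hpos).log fun x hx => (hn x hx).ne'
  have hτx : ContDiffAt ℝ 2 τ x0 := hτU.contDiffAt (hU.mem_nhds hx0)
  set c : ℝ := deriv τ x0 with hc
  have hdτ : HasDerivAt τ c x0 := (hτx.differentiableAt (by norm_num)).hasDerivAt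
  set f' : ℝ ≃L[ℝ] ℝ := ContinuousLinearEquiv.unitsEquivAut ℝ (Units.mk0 c hder) with hf'
  have hfd : HasFDerivAt τ (f' : ℝ →L[ℝ] ℝ) x0 := by
    have h2 := hdτ.hasFDerivAt
    have h3 : (f' : ℝ →L[ℝ] ℝ) = ContinuousLinearMap.toSpanSingleton ℝ c := by
      ext
      simp [hf', ContinuousLinearEquiv.unitsEquivAut]
    rw [h3]
    exact h2
  have h20 : (2 : WithTop ℕ∞) ≠ 0 := by norm_num
  set e := hτx.toOpenPartialHomeomorph τ hfd h20 with he
  have hex0 : x0 ∈ e.source := hτx.mem_toOpenPartialHomeomorph_source hfd h20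
  have hetx : τ x0 ∈ e.target := hτx.image_mem_toOpenPartialHomeomorph_target hfd h20
  have hcoe : ∀ x, e x = τ x := fun x => rfl
  set g : ℝ → ℝ := ⇑e.symm with hg
  have hgx0 : g (τ x0) = x0 := e.left_inv hex0
  have hgC : ContDiffAt ℝ 2 g (τ x0) := by
    refine e.contDiffAt_symm hetx (f₀' := f') ?_ ?_
    · change HasFDerivAt e (f' : ℝ →L[ℝ] ℝ) (g (τ x0))
      rw [hgx0]
      exact hfd
    · change ContDiffAt ℝ 2 e (g (τ x0))
      rw [hgx0]
      exact hτx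
  have hτ0 : 0 < τ x0 := Real.log_pos h1
  have E1 : ∀ᶠ s in 𝓝 (τ x0), ContDiffAt ℝ 2 g s := hgC.eventually (by decide)
  have E2 : ∀ᶠ s in 𝓝 (τ x0), g s ∈ U := by
    have := hgC.continuousAt
    exact this.eventually_mem (by rw [hgx0]; exact hU.mem_nhds hx0)
  have E3 : ∀ᶠ s in 𝓝 (τ x0), s ∈ e.target := e.open_target.mem_nhds hetx
  have E4 : ∀ᶠ s in 𝓝 (τ x0), 0 < s := lt_mem_nhds hτ0
  obtain ⟨η, hη, hball⟩ := Metric.eventually_nhds_iff.1 (E1.and (E2.and (E3.and E4)))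
  set V : Set ℝ := Metric.ball (τ x0) η with hV
  have hVo : IsOpen V := Metric.isOpen_ball
  have hVm : ∀ s ∈ V, ContDiffAt ℝ 2 g s ∧ g s ∈ U ∧ s ∈ e.target ∧ 0 < s := fun s hs => hball hs
  have hgV : ContDiffOn ℝ 2 g V := fun s hs => (hVm s hs).1.contDiffWithinAt
  have hgU : Set.MapsTo g V U := fun s hs => (hVm s hs).2.1
  set a0 := τ x0 - η / 2 with ha0
  set b0 := τ x0 - η / 4 with hb0
  set b1 := τ x0 + η / 4 with hb1
  set a1 := τ x0 + η / 2 with ha1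
  have hsub : Set.Icc a0 a1 ⊆ V := by
    intro s hs
    rw [hV, Metric.mem_ball, Real.dist_eq, abs_lt]
    constructor <;> linarith [hs.1, hs.2]
  have ha0p : 0 < a0 := (hVm a0 (hsub ⟨le_rfl, by rw [ha0, ha1]; linarith⟩)).2.2.2
  have ha01 : a0 ≤ a1 := by rw [ha0, ha1]; linarith
  -- the data in the new coordinate
  set R : ι → ℝ → ℂ := fun j s => A j (g s) / A0 (g s) with hR
  set ρ : ι → ℝ → ℂ := fun j s => μ j (g s) / μ0 (g s) with hρ
  set H : ℝ → ℝ := fun s => Real.log ‖A0 (g s)‖ with hH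
  have hA0g : ContDiffOn ℝ 2 (fun s => A0 (g s)) V := hA0.comp hgV hgU
  have hμ0g : ContDiffOn ℝ 2 (fun s => μ0 (g s)) V := hμ0.comp hgV hgU
  have hRV : ∀ j ∈ J, ContDiffOn ℝ 2 (R j) V := fun j hj => by
    have h2 := ((hA j hj).comp hgV hgU).mul (hA0g.inv fun s hs => hne _ (hgU hs))
    refine h2.congr fun s hs => ?_
    exact div_eq_mul_inv (A j (g s)) (A0 (g s))
  have hρV : ∀ j ∈ J, ContDiffOn ℝ 2 (ρ j) V := fun j hj => by
    have h2 := ((hμ j hj).comp hgV hgU).mul (hμ0g.inv fun s hs => hpos _ (hgU hs))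
    refine h2.congr fun s hs => ?_
    exact div_eq_mul_inv (μ j (g s)) (μ0 (g s))
  have hHV : ContDiffOn ℝ 2 H V := (hA0g.norm ℝ fun s hs => hne _ (hgU hs)).log fun s hs =>
    (norm_pos_iff.2 (hne _ (hgU hs))).ne'
  have hρ1 : ∀ j ∈ J, ∀ s ∈ Set.Icc a0 a1, ‖ρ j s‖ < 1 := by
    intro j hj s hs
    have h2 := hgU (hsub hs)
    simp only [hρ]
    rw [norm_div, div_lt_one (hn _ h2)]
    exact hdom _ h2 j hj
  have hH1 : ContDiffOn ℝ 1 (deriv H) V := hHV.deriv_of_isOpen hVo (by norm_num)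
  have hH2 : ContDiffOn ℝ 0 (deriv (deriv H)) V := hH1.deriv_of_isOpen hVo (by norm_num)
  obtain ⟨M0, hM0⟩ := isCompact_Icc.exists_bound_of_continuousOn (s := Set.Icc a0 a1) (f := H)
    (hHV.continuousOn.mono hsub)
  obtain ⟨M1, hM1⟩ := isCompact_Icc.exists_bound_of_continuousOn (s := Set.Icc a0 a1)
    (f := deriv H) (hH1.continuousOn.mono hsub)
  obtain ⟨M2, hM2⟩ := isCompact_Icc.exists_bound_of_continuousOn (s := Set.Icc a0 a1)
    (f := deriv (deriv H)) (hH2.continuousOn.mono hsub)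
  have haI : a0 ∈ Set.Icc a0 a1 := ⟨le_rfl, ha01⟩
  have k0 : 0 ≤ M0 := (norm_nonneg _).trans (hM0 a0 haI)
  have k1 : 0 ≤ M1 := (norm_nonneg _).trans (hM1 a0 haI)
  have k2 : 0 ≤ M2 := (norm_nonneg _).trans (hM2 a0 haI)
  have hsm := small_sum J ha01 (R := R) (ρ := ρ)
    (fun j hj => D2.of_contDiffOn hVo hsub (hRV j hj))
    (fun j hj => D2.of_contDiffOn hVo hsub (hρV j hj)) hρ1
    (show (0 : ℝ) < 1 / 16 by norm_num)
  set Z : ℕ → ℝ → ℂ := fun p s => ∑ j ∈ J, R j s * ρ j s ^ p with hZ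
  set y : ℕ → ℝ → ℝ := fun p s => p * s + Real.log ‖1 + V.indicator (Z p) s‖ + V.indicator H s with hy
  have hZc : ∀ p, ContinuousOn (Z p) V := fun p =>
    continuousOn_finsetSum _ fun j hj => (hRV j hj).continuousOn.mul ((hρV j hj).continuousOn.pow p)
  have hym : ∀ p, Measurable (y p) := by
    intro p
    have m1 : Measurable (V.indicator (Z p)) := by
      classical
      rw [← Set.piecewise_eq_indicator]
      exact (hZc p).measurable_piecewise continuousOn_const hVo.measurableSet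
    have m2 : Measurable (V.indicator H) := by
      classical
      rw [← Set.piecewise_eq_indicator]
      exact hHV.continuousOn.measurable_piecewise continuousOn_const hVo.measurableSet
    fun_prop
  have hcongr : ∀ p, ∀ s ∈ V, y p s = p * s + Real.log ‖1 + Z p s‖ + H s := by
    intro p s hs
    simp only [hy]
    rw [Set.indicator_of_mem hs, Set.indicator_of_mem hs]
  have hev : ∀ᶠ p : ℕ in atTop, ∃ y' y'' : ℝ → ℝ,
      Cur a0 a1 (1 + (M0 + M1 + M2)) (deriv H) p (y p) y' y'' := by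
    filter_upwards [hsm] with p hp
    obtain ⟨Z1, Z2, hZd, q0, q1, q2⟩ := hp
    have hcur := cur_of_Z (p := p) (M := M0 + M1 + M2) hZd q0 q1 q2 (H := H) (H' := deriv H)
      (H'' := deriv (deriv H))
      (fun t ht => ((hHV.differentiableOn (by norm_num)) t (hsub ht)).differentiableAt
        (hVo.mem_nhds (hsub ht)) |>.hasDerivAt)
      (fun t ht => ((hH1.differentiableOn (by norm_num)) t (hsub ht)).differentiableAt
        (hVo.mem_nhds (hsub ht)) |>.hasDerivAt)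
      (hH2.continuousOn.mono hsub) (fun t ht => (hM0 t ht).trans (by linarith))
      (fun t ht => (hM1 t ht).trans (by linarith)) (fun t ht => (hM2 t ht).trans (by linarith))
    refine ⟨_, _, ⟨⟨fun t ht => ?_, fun t ht => ?_, hcur.loc.slope⟩, hcur.der2, hcur.cont2,
      hcur.slope, hcur.curv⟩⟩
    · rw [hcongr p t (hsub ht)]
      exact hcur.loc.near t ht
    · refine (hcur.loc.der t ht).congr_of_eventuallyEq ?_
      filter_upwards [hVo.mem_nhds (hsub ht)] with s hs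
      exact hcongr p s hs
  have hptw := pt_win' (a0 := a0) (b0 := b0) (b1 := b1) (a1 := a1) ha0p (by rw [ha0, hb0]; linarith)
    (by rw [hb0, hb1]; linarith) (by rw [ha1, hb1]; linarith) (by positivity) hym hev
    (val := fun p s => sv J A0 μ0 A μ (g s) p) (by
      intro s hs
      have hsI : s ∈ Set.Icc a0 a1 := ⟨by linarith [hs.1], by linarith [hs.2]⟩
      have hsV := hsub hsI
      filter_upwards [hsm] with p hp _
      obtain ⟨Z1, Z2, hZd, q0, q1, q2⟩ := hp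
      have h2 : ‖Z p s‖ ≤ 1 / 16 := q0 s hsI
      have h3 : 0 < ‖1 + Z p s‖ := by
        have h4 : ‖(1 : ℂ)‖ ≤ ‖1 + Z p s‖ + ‖Z p s‖ := by
          calc ‖(1 : ℂ)‖ = ‖(1 + Z p s) - Z p s‖ := by congr 1; ring
            _ ≤ _ := norm_sub_le _ _
        rw [norm_one] at h4
        linarith
      have hgs := hgU hsV
      have hAn := hne _ hgs
      have hμn := hpos _ hgs
      have e1 : sv J A0 μ0 A μ (g s) p = ‖A0 (g s)‖ * ‖μ0 (g s)‖ ^ p * ‖1 + Z p s‖ := by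
        unfold sv
        rw [← norm_pow, ← norm_mul, ← norm_mul]
        congr 1
        simp only [hZ, hR, hρ]
        rw [mul_add, mul_one, Finset.mul_sum]
        congr 1
        refine Finset.sum_congr rfl fun j _ => ?_
        rw [div_pow]
        field_simp
      have hτs : Real.log ‖μ0 (g s)‖ = s := e.right_inv (hVm s hsV).2.2.1
      have p1 : 0 < ‖A0 (g s)‖ := norm_pos_iff.2 hAn
      have p2 : 0 < ‖μ0 (g s)‖ ^ p := pow_pos (norm_pos_iff.2 hμn) _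
      rw [e1]
      refine ⟨by positivity, ?_⟩
      rw [Real.log_mul (by positivity) h3.ne', Real.log_mul p1.ne' p2.ne', Real.log_pow, hτs,
        hcongr p s hsV]
      simp only [hH]
      ring) S
  have hgd : DifferentiableOn ℝ g (Set.Ioo b0 b1) := (hgV.differentiableOn (by norm_num)).mono
    (fun s hs => hsub ⟨by linarith [hs.1], by linarith [hs.2]⟩)
  have him := Pool.Agent.Y719.Mer.ae_image hgd (Q := fun s => Pt (fun p => ⌊sv J A0 μ0 A μ (g s) p⌋₊)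
      (Real.exp Real.eulerMascheroniConstant / s) S) (by
    filter_upwards [hptw] with s hs hsI
    exact hs ⟨hsI.1, hsI.2.le⟩)
  refine ⟨e.source ∩ τ ⁻¹' (Set.Ioo b0 b1), ?_, ?_⟩
  · refine inter_mem (e.open_source.mem_nhds hex0) ?_
    exact hτx.continuousAt.preimage_mem_nhds (Ioo_mem_nhds (by rw [hb0]; linarith)
      (by rw [hb1]; linarith))
  · filter_upwards [him] with x hx hxN
    have h2 : g (τ x) = x := e.left_inv hxN.1
    have h3 := hx (τ x) hxN.2 h2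
    rw [h2] at h3
    exact h3

/-- **The statements along `C ^ 2` curves of exponential sums with a dominating term.** -/
theorem pt_curve {ι : Type*} (J : Finset ι) {U : Set ℝ} (hU : IsOpen U) {A0 μ0 : ℝ → ℂ}
    {A μ : ι → ℝ → ℂ} (hA0 : ContDiffOn ℝ 2 A0 U) (hμ0 : ContDiffOn ℝ 2 μ0 U)
    (hA : ∀ j ∈ J, ContDiffOn ℝ 2 (A j) U) (hμ : ∀ j ∈ J, ContDiffOn ℝ 2 (μ j) U)
    (hne : ∀ x ∈ U, A0 x ≠ 0) (hdom : ∀ x ∈ U, ∀ j ∈ J, ‖μ j x‖ < ‖μ0 x‖)
    (hpos : ∀ x ∈ U, μ0 x ≠ 0) (S : Set ℕ) :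
    ∀ᵐ x : ℝ, x ∈ U → 1 < ‖μ0 x‖ → deriv (fun x => Real.log ‖μ0 x‖) x ≠ 0 →
      Pt (fun p => ⌊sv J A0 μ0 A μ x p⌋₊)
        (Real.exp Real.eulerMascheroniConstant / Real.log ‖μ0 x‖) S := by
  rw [ae_iff]
  refine measure_null_of_locally_null _ fun x0 hx0 => ?_
  rw [Set.mem_ofPred_eq] at hx0
  push Not at hx0
  obtain ⟨hx, h1, hder, _⟩ := hx0
  obtain ⟨N, hN, hae⟩ := pt_loc J hU hA0 hμ0 hA hμ hne hdom hpos hx h1 hder S
  rw [ae_iff] at hae
  refine ⟨{x | ¬ (x ∈ U → 1 < ‖μ0 x‖ → deriv (fun x => Real.log ‖μ0 x‖) x ≠ 0 →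
      Pt (fun p => ⌊sv J A0 μ0 A μ x p⌋₊)
        (Real.exp Real.eulerMascheroniConstant / Real.log ‖μ0 x‖) S)} ∩ N,
    inter_mem self_mem_nhdsWithin (mem_nhdsWithin_of_mem_nhds hN), ?_⟩
  refine measure_mono_null ?_ hae
  rintro x ⟨hxb, hxN⟩
  rw [Set.mem_ofPred_eq] at hxb ⊢
  intro hP
  exact hxb fun _ _ _ => hP hxN

end Pool.Agent.N54.LP
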