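import Mathlib
import Pool.Agent.N54.LP.Curve

set_option autoImplicit false

/-!
# Lehmer-Pierce sequences: scaling of the roots
-/

namespace Pool.Agent.N54.LP

open Finset Filter Topology MeasureTheory
open Pool.Agent.TH888.R
open scoped Real

/-- the absolute value of `(a x ^ N) ^ p * ∏ ((x λ) ^ p - 1)` -/
noncomputable def rv {ι : Type*} [Fintype ι] (a : ℂ) (N : ℕ) (lam : ι → ℂ) (x : ℝ) (p : ℕ) : ℝ :=
  ‖(a * (x : ℂ) ^ N) ^ p * ∏ i, (((x : ℂ) * lam i) ^ p - 1)‖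

/-- the logarithmic Mahler measure of the polynomial with leading coefficient `a x ^ N` and roots
`x λ` -/
noncomputable def mv {ι : Type*} [Fintype ι] (a : ℂ) (N : ℕ) (lam : ι → ℂ) (x : ℝ) : ℝ :=
  Real.log ‖a * (x : ℂ) ^ N‖ + ∑ i, Real.posLog ‖(x : ℂ) * lam i‖

section

variable {ι : Type*} [Fintype ι] [DecidableEq ι]

/-- the term of the subset `T` -/
noncomputable def mu (a : ℂ) (N : ℕ) (lam : ι → ℂ) (T : Finset ι) (x : ℝ) : ℂ :=
  a * (x : ℂ) ^ N * ∏ i ∈ T, ((x : ℂ) * lam i)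

lemma rv_eq (a : ℂ) (N : ℕ) (lam : ι → ℂ) (T : Finset ι) (x : ℝ) (p : ℕ) :
    rv a N lam x p = sv ((univ : Finset (Finset ι)).erase T) (fun _ => (-1 : ℂ) ^ (univ \ T).card)
      (mu a N lam T) (fun S _ => (-1 : ℂ) ^ (univ \ S).card) (fun S => mu a N lam S) x p := by
  unfold rv sv
  congr 1
  rw [Finset.add_sum_erase univ (fun S => (-1 : ℂ) ^ (univ \ S).card * mu a N lam S x ^ p)
    (mem_univ T)]
  have h1 : ∏ i, (((x : ℂ) * lam i) ^ p - 1) = ∑ S : Finset ι,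
      (∏ i ∈ S, ((x : ℂ) * lam i) ^ p) * ∏ i ∈ univ \ S, (-1 : ℂ) := by
    simp only [sub_eq_add_neg]
    rw [Finset.prod_add, Finset.powerset_univ]
  rw [h1, Finset.mul_sum]
  refine Finset.sum_congr rfl fun S _ => ?_
  unfold mu
  rw [Finset.prod_const, mul_pow, Finset.prod_pow]
  ring

omit [Fintype ι] [DecidableEq ι] in
lemma mu_contDiff (a : ℂ) (N : ℕ) (lam : ι → ℂ) (T : Finset ι) : ContDiff ℝ 2 (mu a N lam T) := by
  unfold mu
  have h : ContDiff ℝ 2 (fun x : ℝ => (x : ℂ)) := Complex.ofRealCLM.contDiff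
  exact (contDiff_const.mul (h.pow N)).mul (contDiff_prod fun i _ => h.mul contDiff_const)

/-- the open set on which the term of `T` dominates -/
def UT (lam : ι → ℂ) (T : Finset ι) : Set ℝ :=
  {x | 0 < x ∧ (∀ i ∈ T, 1 < x * ‖lam i‖) ∧ ∀ i ∈ univ \ T, x * ‖lam i‖ < 1}

lemma isOpen_UT (lam : ι → ℂ) (T : Finset ι) : IsOpen (UT lam T) := by
  have e : UT lam T = Set.Ioi 0 ∩ ((⋂ i ∈ T, {x : ℝ | 1 < x * ‖lam i‖}) ∩
      ⋂ i ∈ univ \ T, {x : ℝ | x * ‖lam i‖ < 1}) := by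
    ext x
    simp [UT]
  rw [e]
  refine isOpen_Ioi.inter (IsOpen.inter ?_ ?_)
  · exact isOpen_biInter_finset fun i _ => isOpen_lt continuous_const (by fun_prop)
  · exact isOpen_biInter_finset fun i _ => isOpen_lt (by fun_prop) continuous_const

lemma norm_x {x : ℝ} (hx : 0 < x) (z : ℂ) : ‖(x : ℂ) * z‖ = x * ‖z‖ := by
  rw [norm_mul, Complex.norm_real, Real.norm_eq_abs, abs_of_pos hx]

omit [Fintype ι] [DecidableEq ι] in
lemma mu_norm (a : ℂ) (N : ℕ) (lam : ι → ℂ) (T : Finset ι) {x : ℝ} (hx : 0 < x) :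
    ‖mu a N lam T x‖ = ‖a‖ * x ^ N * ∏ i ∈ T, (x * ‖lam i‖) := by
  unfold mu
  rw [norm_mul, norm_mul, norm_pow, Complex.norm_real, Real.norm_eq_abs, abs_of_pos hx, norm_prod]
  congr 1
  exact Finset.prod_congr rfl fun i _ => norm_x hx _

lemma mu_ne (a : ℂ) (ha : a ≠ 0) (N : ℕ) (lam : ι → ℂ) (T : Finset ι) {x : ℝ} (hx : x ∈ UT lam T) :
    mu a N lam T x ≠ 0 := by
  rw [← norm_pos_iff, mu_norm a N lam T hx.1]
  have h1 : 0 < ∏ i ∈ T, (x * ‖lam i‖) := Finset.prod_pos fun i hi => by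
    linarith [hx.2.1 i hi]
  have h2 : 0 < ‖a‖ := norm_pos_iff.2 ha
  have h3 : 0 < x ^ N := pow_pos hx.1 _
  positivity

lemma mu_dom (a : ℂ) (ha : a ≠ 0) (N : ℕ) (lam : ι → ℂ) {S T : Finset ι} (hST : S ≠ T) {x : ℝ}
    (hx : x ∈ UT lam T) : ‖mu a N lam S x‖ < ‖mu a N lam T x‖ := by
  rw [mu_norm a N lam T hx.1, mu_norm a N lam S hx.1]
  have h2 : 0 < ‖a‖ := norm_pos_iff.2 ha
  have h3 : 0 < x ^ N := pow_pos hx.1 _
  refine mul_lt_mul_of_pos_left ?_ (by positivity)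
  have hI : 0 < ∏ i ∈ S ∩ T, (x * ‖lam i‖) := Finset.prod_pos fun i hi => by
    linarith [hx.2.1 i (mem_inter.1 hi).2]
  have eS : ∏ i ∈ S, (x * ‖lam i‖) = (∏ i ∈ S ∩ T, (x * ‖lam i‖)) * ∏ i ∈ S \ T, (x * ‖lam i‖) :=
    (Finset.prod_inter_mul_prod_sdiff S T _).symm
  have eT : ∏ i ∈ T, (x * ‖lam i‖) = (∏ i ∈ S ∩ T, (x * ‖lam i‖)) * ∏ i ∈ T \ S, (x * ‖lam i‖) := by
    rw [inter_comm]
    exact (Finset.prod_inter_mul_prod_sdiff T S _).symm
  rw [eS, eT]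
  refine mul_lt_mul_of_pos_left ?_ hI
  have n0 : ∀ i, 0 ≤ x * ‖lam i‖ := fun i => mul_nonneg hx.1.le (norm_nonneg _)
  have b1 : ∏ i ∈ S \ T, (x * ‖lam i‖) ≤ 1 := Finset.prod_le_one (fun i _ => n0 i) fun i hi =>
    (hx.2.2 i (by rw [Finset.mem_sdiff] at hi ⊢; exact ⟨mem_univ _, hi.2⟩)).le
  have b2 : 1 ≤ ∏ i ∈ T \ S, (x * ‖lam i‖) := by
    rw [← Finset.prod_const_one (s := T \ S)]
    exact Finset.prod_le_prod (fun _ _ => zero_le_one) fun i hi => (hx.2.1 i (Finset.mem_sdiff.1 hi).1).le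
  by_cases h : (T \ S).Nonempty
  · have b3 : 1 < ∏ i ∈ T \ S, (x * ‖lam i‖) := by
      obtain ⟨i, hi⟩ := h
      rw [← Finset.mul_prod_erase _ _ hi]
      have c1 := hx.2.1 i (Finset.mem_sdiff.1 hi).1
      have c2 : 1 ≤ ∏ j ∈ (T \ S).erase i, (x * ‖lam j‖) := by
        rw [← Finset.prod_const_one (s := (T \ S).erase i)]
        exact Finset.prod_le_prod (fun _ _ => zero_le_one) fun j hj =>
          (hx.2.1 j (Finset.mem_sdiff.1 (mem_of_mem_erase hj)).1).le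
      nlinarith
    linarith
  · rw [not_nonempty_iff_eq_empty, sdiff_eq_empty_iff_subset] at h
    have hne : (S \ T).Nonempty := by
      rw [nonempty_iff_ne_empty, Ne, sdiff_eq_empty_iff_subset]
      intro h'
      exact hST (Subset.antisymm h' h)
    have b3 : ∏ i ∈ S \ T, (x * ‖lam i‖) < 1 := by
      obtain ⟨i, hi⟩ := hne
      rw [← Finset.mul_prod_erase _ _ hi]
      have hi' : ∀ j ∈ S \ T, x * ‖lam j‖ < 1 := fun j hj =>
        hx.2.2 j (by rw [Finset.mem_sdiff] at hj ⊢; exact ⟨mem_univ _, hj.2⟩)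
      have c1 := hi' i hi
      have c2 : ∏ j ∈ (S \ T).erase i, (x * ‖lam j‖) ≤ 1 := Finset.prod_le_one (fun i _ => n0 i)
        fun j hj => (hi' j (mem_of_mem_erase hj)).le
      have c3 : 0 ≤ ∏ j ∈ (S \ T).erase i, (x * ‖lam j‖) := Finset.prod_nonneg fun i _ => n0 i
      nlinarith [n0 i]
    linarith

lemma mv_eq (a : ℂ) (ha : a ≠ 0) (N : ℕ) (lam : ι → ℂ) (T : Finset ι) {x : ℝ} (hx : x ∈ UT lam T) :
    mv a N lam x = Real.log ‖mu a N lam T x‖ := by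
  unfold mv mu
  have h2 : ‖a * (x : ℂ) ^ N‖ ≠ 0 := by
    rw [norm_ne_zero_iff]
    exact mul_ne_zero ha (pow_ne_zero _ (by exact_mod_cast hx.1.ne'))
  have h3 : ∀ i ∈ T, ‖(x : ℂ) * lam i‖ ≠ 0 := fun i hi => by
    rw [norm_x hx.1]
    linarith [hx.2.1 i hi]
  rw [norm_mul _ (∏ i ∈ T, _), norm_prod, Real.log_mul h2 (Finset.prod_ne_zero_iff.2 h3),
    Real.log_prod h3]
  congr 1
  rw [← Finset.sum_subset (subset_univ T)]
  · refine Finset.sum_congr rfl fun i hi => ?_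
    rw [Real.posLog_eq_log]
    rw [abs_of_nonneg (norm_nonneg _), norm_x hx.1]
    exact (hx.2.1 i hi).le
  · intro i _ hi
    rw [Real.posLog_eq_zero_iff, abs_of_nonneg (norm_nonneg _), norm_x hx.1]
    exact (hx.2.2 i (by simp [hi])).le

lemma deriv_mu (a : ℂ) (ha : a ≠ 0) (N : ℕ) (lam : ι → ℂ) (T : Finset ι) {x : ℝ} (hx : x ∈ UT lam T)
    (hT : 0 < N + T.card) : deriv (fun x => Real.log ‖mu a N lam T x‖) x ≠ 0 := by
  have h1 : ∀ y ∈ UT lam T, Real.log ‖mu a N lam T y‖ =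
      ((N + T.card : ℕ) : ℝ) * Real.log y + (Real.log ‖a‖ + ∑ i ∈ T, Real.log ‖lam i‖) := by
    intro y hy
    rw [mu_norm a N lam T hy.1]
    have h2 : ‖a‖ ≠ 0 := norm_ne_zero_iff.2 ha
    have h3 : y ^ N ≠ 0 := (pow_pos hy.1 _).ne'
    have h4 : ∀ i ∈ T, y * ‖lam i‖ ≠ 0 := fun i hi => by linarith [hy.2.1 i hi]
    rw [Real.log_mul (mul_ne_zero h2 h3) (Finset.prod_ne_zero_iff.2 h4), Real.log_mul h2 h3,
      Real.log_pow, Real.log_prod h4]
    have h5 : ∑ i ∈ T, Real.log (y * ‖lam i‖) = ∑ i ∈ T, (Real.log y + Real.log ‖lam i‖) := by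
      refine Finset.sum_congr rfl fun i hi => ?_
      have h6 := h4 i hi
      exact Real.log_mul hy.1.ne' (right_ne_zero_of_mul h6)
    rw [h5, Finset.sum_add_distrib, Finset.sum_const, nsmul_eq_mul]
    push_cast
    ring
  have h2 : (fun x => Real.log ‖mu a N lam T x‖) =ᶠ[𝓝 x] fun y =>
      ((N + T.card : ℕ) : ℝ) * Real.log y + (Real.log ‖a‖ + ∑ i ∈ T, Real.log ‖lam i‖) := by
    filter_upwards [(isOpen_UT lam T).mem_nhds hx] with y hy
    exact h1 y hy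
  rw [h2.deriv_eq]
  have h3 : HasDerivAt (fun y : ℝ =>
      ((N + T.card : ℕ) : ℝ) * Real.log y + (Real.log ‖a‖ + ∑ i ∈ T, Real.log ‖lam i‖))
      (((N + T.card : ℕ) : ℝ) * x⁻¹) x :=
    ((Real.hasDerivAt_log hx.1.ne').const_mul _).add_const _
  rw [h3.deriv]
  have h4 : (0 : ℝ) < ((N + T.card : ℕ) : ℝ) := by exact_mod_cast hT
  have h5 : 0 < x⁻¹ := inv_pos.2 hx.1
  positivity

/-- the values of `x` which are in none of the sets `UT` -/
lemma ae_UT (lam : ι → ℂ) : ∀ᵐ x : ℝ, 0 < x → ∃ T : Finset ι, x ∈ UT lam T := by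
  have h1 : ∀ i, ∀ᵐ x : ℝ, x * ‖lam i‖ ≠ 1 := by
    intro i
    rw [ae_iff]
    refine Set.Subsingleton.measure_zero ?_ _
    intro x hx y hy
    simp only [ne_eq, not_not, Set.mem_ofPred_eq] at hx hy
    have h2 : ‖lam i‖ ≠ 0 := by
      intro h
      rw [h, mul_zero] at hx
      exact zero_ne_one hx
    exact mul_right_cancel₀ h2 (hx.trans hy.symm)
  filter_upwards [ae_all_iff.2 h1] with x hx hx0
  classical
  refine ⟨univ.filter fun i => 1 < x * ‖lam i‖, hx0, fun i hi => (mem_filter.1 hi).2, fun i hi => ?_⟩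
  have h2 : ¬ 1 < x * ‖lam i‖ := fun h => (Finset.mem_sdiff.1 hi).2 (mem_filter.2 ⟨mem_univ _, h⟩)
  exact lt_of_le_of_ne (not_lt.1 h2) (hx i)

/-- **The statements for the products `(a x ^ N) ^ p ∏ ((x λ) ^ p - 1)`, almost every `x > 0`.** -/
theorem pt_roots (a : ℂ) (ha : a ≠ 0) (N : ℕ) (lam : ι → ℂ) (hN : 0 < N ∨ ‖a‖ ≤ 1) (S : Set ℕ) :
    ∀ᵐ x : ℝ, 0 < x → 0 < mv a N lam x →
      Pt (fun p => ⌊rv a N lam x p⌋₊)
        (Real.exp Real.eulerMascheroniConstant / mv a N lam x) S := by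
  have h1 : ∀ T : Finset ι, ∀ᵐ x : ℝ, x ∈ UT lam T → 0 < mv a N lam x →
      Pt (fun p => ⌊rv a N lam x p⌋₊) (Real.exp Real.eulerMascheroniConstant / mv a N lam x) S := by
    intro T
    have h2 := pt_curve ((univ : Finset (Finset ι)).erase T) (isOpen_UT lam T)
      (A0 := fun _ => (-1 : ℂ) ^ (univ \ T).card) (μ0 := mu a N lam T)
      (A := fun S _ => (-1 : ℂ) ^ (univ \ S).card) (μ := fun S => mu a N lam S)
      contDiffOn_const (mu_contDiff a N lam T).contDiffOn (fun _ _ => contDiffOn_const)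
      (fun T' _ => (mu_contDiff a N lam T').contDiffOn)
      (fun _ _ => pow_ne_zero _ (neg_ne_zero.2 one_ne_zero))
      (fun x hx T' hT' => mu_dom a ha N lam (ne_of_mem_erase hT') hx)
      (fun x hx => mu_ne a ha N lam T hx) S
    filter_upwards [h2] with x hx hxU hm
    have hmv := mv_eq a ha N lam T hxU
    rw [hmv] at hm ⊢
    have h3 : 1 < ‖mu a N lam T x‖ := by
      by_contra h
      exact absurd hm (not_lt.2 (Real.log_nonpos (norm_nonneg _) (not_lt.1 h)))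
    have h4 : 0 < N + T.card := by
      by_contra h
      have h5 : N = 0 := by omega
      have h6 : T = ∅ := Finset.card_eq_zero.1 (by omega)
      rw [mu_norm a N lam T hxU.1, h5, h6] at h3
      rcases hN with h7 | h7
      · omega
      · simp only [pow_zero, mul_one, prod_empty] at h3
        linarith
    have h5 := hx hxU h3 (deriv_mu a ha N lam T hxU h4)
    have e : (fun p => ⌊rv a N lam x p⌋₊) = fun p => ⌊sv ((univ : Finset (Finset ι)).erase T)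
        (fun _ => (-1 : ℂ) ^ (univ \ T).card) (mu a N lam T)
        (fun S _ => (-1 : ℂ) ^ (univ \ S).card) (fun S => mu a N lam S) x p⌋₊ := by
      funext p
      rw [rv_eq a N lam T]
    rw [e]
    exact h5
  filter_upwards [ae_all_iff.2 h1, ae_UT lam] with x hx hU hx0 hm
  obtain ⟨T, hT⟩ := hU hx0
  exact hx T hT hm

end

end Pool.Agent.N54.LP
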