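import Mathlib
import Pool.Agent.N54.LP.Roots

set_option autoImplicit false

/-!
# Lehmer-Pierce sequences of polynomials and matrices
-/

namespace Pool.Agent.N54.LP

open Finset Filter Topology MeasureTheory Polynomial
open Pool.Agent.TH888.R
open scoped Real

/-- the Lehmer-Pierce numbers of a complex polynomial -/
noncomputable def lpn (F : ℂ[X]) (p : ℕ) : ℝ := ‖resultant F (X ^ p - 1) F.natDegree p‖

/-- the polynomial with the roots multiplied by `x`, times `x ^ N` -/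
noncomputable def sc (F : ℂ[X]) (N : ℕ) (x : ℝ) : ℂ[X] := C ((x : ℂ) ^ N) * F.scaleRoots (x : ℂ)

/-- the roots as a family -/
noncomputable def rt (F : ℂ[X]) (i : Fin F.roots.toList.length) : ℂ := F.roots.toList.get i

lemma rt_prod (F : ℂ[X]) (g : ℂ → ℂ) : (F.roots.map g).prod = ∏ i, g (rt F i) := by
  conv_lhs => rw [← Multiset.coe_toList F.roots]
  rw [Multiset.map_coe, Multiset.prod_coe, ← List.prod_ofFn]
  congr 1
  have h1 : List.ofFn (fun i => g (rt F i)) = List.map g (List.ofFn (rt F)) := List.map_ofFn.symm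
  rw [h1]
  congr 1
  exact (List.ofFn_get _).symm

lemma rt_sum (F : ℂ[X]) (g : ℂ → ℝ) : (F.roots.map g).sum = ∑ i, g (rt F i) := by
  conv_lhs => rw [← Multiset.coe_toList F.roots]
  rw [Multiset.map_coe, Multiset.sum_coe, ← List.sum_ofFn]
  congr 1
  have h1 : List.ofFn (fun i => g (rt F i)) = List.map g (List.ofFn (rt F)) := List.map_ofFn.symm
  rw [h1]
  congr 1
  exact (List.ofFn_get _).symm

lemma natDegree_Xp (R : Type*) [CommRing R] [Nontrivial R] (p : ℕ) : (X ^ p - 1 : R[X]).natDegree = p := by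
  have := natDegree_X_pow_sub_C (n := p) (r := (1 : R))
  rwa [C_1] at this

lemma lpn_eq (F : ℂ[X]) (p : ℕ) :
    lpn F p = ‖F.leadingCoeff ^ p * (F.roots.map fun a => a ^ p - 1).prod‖ := by
  unfold lpn
  rw [resultant_eq_prod_eval F (X ^ p - 1) p (natDegree_Xp ℂ p).le (IsAlgClosed.splits F)]
  congr 3
  refine Multiset.map_congr rfl fun a _ => ?_
  simp

lemma sc_roots {F : ℂ[X]} (N : ℕ) {x : ℝ} (hx : x ≠ 0) :
    (sc F N x).roots = F.roots.map fun a => (x : ℂ) * a := by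
  unfold sc
  have h1 : ((x : ℂ) ^ N) ≠ 0 := pow_ne_zero _ (by exact_mod_cast hx)
  rw [roots_C_mul _ h1]
  exact roots_scaleRoots F (IsUnit.mk0 (x : ℂ) (by exact_mod_cast hx))

lemma sc_lc (F : ℂ[X]) (N : ℕ) (x : ℝ) :
    (sc F N x).leadingCoeff = F.leadingCoeff * (x : ℂ) ^ N := by
  unfold sc
  rw [leadingCoeff_mul, leadingCoeff_C, leadingCoeff_scaleRoots, mul_comm]

lemma lpn_sc (F : ℂ[X]) (N : ℕ) {x : ℝ} (hx : x ≠ 0) (p : ℕ) :
    lpn (sc F N x) p = rv F.leadingCoeff N (rt F) x p := by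
  rw [lpn_eq, sc_lc, sc_roots N hx, Multiset.map_map, rt_prod]
  rfl

lemma logM_sc (F : ℂ[X]) (N : ℕ) {x : ℝ} (hx : x ≠ 0) :
    (sc F N x).logMahlerMeasure = mv F.leadingCoeff N (rt F) x := by
  rw [logMahlerMeasure_eq_log_leadingCoeff_add_sum_log_roots, sc_lc, sc_roots N hx,
    Multiset.map_map, rt_sum]
  rfl

/-- **The statements for the polynomials with scaled roots.** -/
theorem pt_sc (F : ℂ[X]) (hF : F ≠ 0) (N : ℕ) (hN : 0 < N ∨ ‖F.leadingCoeff‖ ≤ 1) (S : Set ℕ) :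
    ∀ᵐ x : ℝ, 0 < x → 0 < (sc F N x).logMahlerMeasure →
      Pt (fun p => ⌊lpn (sc F N x) p⌋₊)
        (Real.exp Real.eulerMascheroniConstant / (sc F N x).logMahlerMeasure) S := by
  filter_upwards [pt_roots F.leadingCoeff (leadingCoeff_ne_zero.2 hF) N (rt F) hN S] with x hx hx0 hm
  rw [logM_sc F N hx0.ne'] at hm ⊢
  have h := hx hx0 hm
  have e : (fun p => ⌊lpn (sc F N x) p⌋₊) = fun p => ⌊rv F.leadingCoeff N (rt F) x p⌋₊ := by
    funext p
    rw [lpn_sc F N hx0.ne']
  rw [e]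
  exact h

/-! ### Real polynomials -/

lemma ofReal_map_res (f : ℝ[X]) (p : ℕ) :
    |resultant f (X ^ p - 1)| = lpn (f.map Complex.ofRealHom) p := by
  unfold lpn
  have h1 : (X ^ p - 1 : ℂ[X]) = (X ^ p - 1 : ℝ[X]).map Complex.ofRealHom := by simp
  rw [h1, resultant_map_map, natDegree_map, natDegree_Xp]
  change |_| = ‖((_ : ℝ) : ℂ)‖
  rw [Complex.norm_real, Real.norm_eq_abs]

/-! ### Matrices -/

lemma det_aeval_prod {d : ℕ} (A : Matrix (Fin d) (Fin d) ℂ) (s : Multiset ℂ) :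
    (aeval A (s.map fun a => X - C a).prod).det =
      (s.map fun a => (-1) ^ d * A.charpoly.eval a).prod := by
  induction s using Multiset.induction with
  | empty => simp
  | cons a s ih =>
    rw [Multiset.map_cons, Multiset.prod_cons, map_mul, Matrix.det_mul, ih, Multiset.map_cons,
      Multiset.prod_cons]
    congr 1
    rw [map_sub, aeval_X, aeval_C, Matrix.eval_charpoly]
    have h1 : A - (algebraMap ℂ (Matrix (Fin d) (Fin d) ℂ)) a = -(Matrix.scalar (Fin d) a - A) := by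
      rw [neg_sub]
      rfl
    rw [h1, Matrix.det_neg, Fintype.card_fin]

lemma norm_det_pow_sub_one {d : ℕ} (A : Matrix (Fin d) (Fin d) ℂ) {p : ℕ} :
    ‖(A ^ p - 1).det‖ = lpn A.charpoly p := by
  have hm : (X ^ p - 1 : ℂ[X]).natDegree = p := natDegree_Xp ℂ p
  rcases Nat.eq_zero_or_pos p with rfl | hp
  · have hd : A.charpoly.natDegree = d := by
      rw [Matrix.charpoly_natDegree_eq_dim, Fintype.card_fin]
    unfold lpn
    rw [hd, pow_zero, pow_zero, sub_self, sub_self, resultant_zero_right_deg, coeff_zero]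
    rcases Nat.eq_zero_or_pos d with rfl | hd0
    · simp
    · have : Nonempty (Fin d) := ⟨⟨0, hd0⟩⟩
      rw [Matrix.det_zero, zero_pow hd0.ne']
  have hmon : (X ^ p - 1 : ℂ[X]).Monic := by
    have := monic_X_pow_sub_C (1 : ℂ) hp.ne'
    rwa [C_1] at this
  have h0 : (X ^ p - 1 : ℂ[X]) = ((X ^ p - 1 : ℂ[X]).roots.map fun a => X - C a).prod :=
    (IsAlgClosed.splits _).eq_prod_roots_of_monic hmon
  have h1 : A ^ p - 1 = aeval A (X ^ p - 1 : ℂ[X]) := by simp
  have hd : A.charpoly.natDegree = d := by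
    rw [Matrix.charpoly_natDegree_eq_dim, Fintype.card_fin]
  rw [h1, h0, det_aeval_prod]
  unfold lpn
  rw [resultant_comm, norm_mul, norm_pow, norm_neg, norm_one, one_pow, one_mul]
  have h2 := resultant_eq_prod_eval (X ^ p - 1 : ℂ[X]) A.charpoly A.charpoly.natDegree le_rfl
    (IsAlgClosed.splits _)
  rw [hm] at h2
  rw [h2, hmon.leadingCoeff, one_pow, one_mul, Multiset.prod_map_mul, norm_mul]
  have h3 : ‖(Multiset.map (fun _ : ℂ => (-1 : ℂ) ^ d) (X ^ p - 1 : ℂ[X]).roots).prod‖ = 1 := by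
    rw [Multiset.map_const', Multiset.prod_replicate]
    simp
  rw [h3, one_mul]

lemma charpoly_smul {d : ℕ} (A : Matrix (Fin d) (Fin d) ℂ) {x : ℝ} (hx : x ≠ 0) :
    ((x : ℂ) • A).charpoly = sc A.charpoly 0 x := by
  have hxc : (x : ℂ) ≠ 0 := by exact_mod_cast hx
  unfold sc
  rw [pow_zero, C_1, one_mul]
  refine Polynomial.funext fun z => ?_
  have h1 : z = (x : ℂ) * (z / x) := by field_simp
  have hd : A.charpoly.natDegree = d := by
    rw [Matrix.charpoly_natDegree_eq_dim, Fintype.card_fin]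
  rw [Matrix.eval_charpoly]
  conv_rhs => rw [h1]
  rw [scaleRoots_eval_mul, Matrix.eval_charpoly, hd]
  have h2 : (Matrix.scalar (Fin d)) z - (x : ℂ) • A =
      (x : ℂ) • ((Matrix.scalar (Fin d)) (z / x) - A) := by
    ext i j
    simp only [Matrix.scalar_apply, Matrix.sub_apply, Matrix.smul_apply, Matrix.diagonal_apply,
      smul_eq_mul]
    split_ifs
    · field_simp
    · ring
  rw [h2, Matrix.det_smul, Fintype.card_fin]

/-- **The statements for the multiples of a matrix.** -/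
theorem pt_smul {d : ℕ} (A : Matrix (Fin d) (Fin d) ℂ) (S : Set ℕ) :
    ∀ᵐ x : ℝ, 0 < x → 0 < ((x : ℂ) • A).charpoly.logMahlerMeasure →
      Pt (fun p => ⌊‖(((x : ℂ) • A) ^ p - 1).det‖⌋₊)
        (Real.exp Real.eulerMascheroniConstant / ((x : ℂ) • A).charpoly.logMahlerMeasure) S := by
  have hmon := Matrix.charpoly_monic A
  filter_upwards [pt_sc A.charpoly hmon.ne_zero 0
    (Or.inr (by rw [hmon.leadingCoeff, norm_one])) S] with x hx hx0 hm
  rw [charpoly_smul A hx0.ne'] at hm ⊢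
  have h := hx hx0 hm
  have e : (fun p => ⌊‖(((x : ℂ) • A) ^ p - 1).det‖⌋₊) = fun p => ⌊lpn (sc A.charpoly 0 x) p⌋₊ := by
    funext p
    rw [norm_det_pow_sub_one, charpoly_smul A hx0.ne']
  rw [e]
  exact h

end Pool.Agent.N54.LP
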