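import Mathlib
import Pool.Agent.N54.LP.Poly

set_option autoImplicit false

/-!
# From one-parameter families to almost every matrix and polynomial
-/

namespace Pool.Agent.N54.LP

open Finset Filter Topology MeasureTheory Polynomial
open Pool.Agent.TH888.R
open Pool.Agent.H305R2 (roughPart)
open scoped Real

/-- the set of parameters for which the statements hold is measurable -/
lemma meas_pt {Ω : Type*} [MeasurableSpace Ω] {s : Ω → ℕ → ℕ} {c : Ω → ℝ}
    (hs : ∀ p : ℕ, p.Prime → Measurable fun a => s a p) (hc : Measurable c) (S : Set ℕ) :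
    MeasurableSet {a | Pt (s a) (c a) S} := by
  classical
  have hR : ∀ p : ℕ, MeasurableSet {a : Ω | p.Prime ∧ p ∈ S ∧ (roughPart p (s a p)).Prime} := by
    intro p
    by_cases hp : p.Prime
    · exact (hs p hp) (MeasurableSet.of_discrete
        (s := {m : ℕ | p.Prime ∧ p ∈ S ∧ (roughPart p m).Prime}))
    · convert MeasurableSet.empty using 1
      ext a
      simp [hp]
  have hC : ∀ n : ℕ, Measurable fun a => (cS S (s a) n : ℝ) := by
    intro n
    have e : (fun a => (cS S (s a) n : ℝ)) = fun a => ∑ p ∈ range (n + 1),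
        if p.Prime ∧ p ∈ S ∧ (roughPart p (s a p)).Prime then (1 : ℝ) else 0 := by
      funext a
      unfold cS
      rw [Finset.card_filter]
      push_cast
      refine Finset.sum_congr rfl fun p _ => ?_
      congr
    rw [e]
    exact Finset.measurable_sum _ fun p _ => Measurable.ite (hR p) measurable_const measurable_const
  by_cases hT : Tendsto (VS S) atTop atTop
  · have e : {a | Pt (s a) (c a) S} = (⋃ B : ℕ, ⋂ n : ℕ, ⋂ _ : 3 ≤ n, {a | |(cS S (s a) n : ℝ) -
        c a * VS S n| ≤ B * gr (VS S n * (1 + Real.log (Real.log n)))}) ∩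
        ⋂ P : ℕ, ⋃ p : ℕ, ⋃ _ : P < p, {a : Ω | p.Prime ∧ p ∈ S ∧ (roughPart p (s a p)).Prime} := by
      ext a
      simp only [Set.mem_inter_iff, Set.mem_iUnion, Set.mem_iInter, exists_prop]
      constructor
      · intro h
        have h : Pt (s a) (c a) S := h
        obtain ⟨B, hB, h1⟩ := h.law hT
        obtain ⟨m, hm⟩ := exists_nat_ge B
        refine ⟨⟨m, fun n hn => ?_⟩, fun P => ?_⟩
        · refine (h1 n hn).trans (mul_le_mul_of_nonneg_right hm ?_)
          unfold gr
          positivity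
        · obtain ⟨p, hp, hPp⟩ := (h.inf hT).exists_gt P
          exact ⟨p, hPp, hp⟩
      · rintro ⟨⟨m, hm⟩, h2⟩
        refine ⟨fun _ => ⟨m, Nat.cast_nonneg m, hm⟩, fun _ => ?_, fun h => absurd hT h⟩
        refine Set.infinite_of_not_bddAbove fun hb => ?_
        obtain ⟨P, hP⟩ := hb
        obtain ⟨p, hp1, hp2⟩ := h2 P
        exact absurd (hP hp2) (not_le.2 hp1)
    rw [e]
    refine MeasurableSet.inter ?_ ?_
    · refine MeasurableSet.iUnion fun B => MeasurableSet.iInter fun n => MeasurableSet.iInter fun _ => ?_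
      exact measurableSet_le (((hC n).sub (hc.mul_const _)).abs) measurable_const
    · exact MeasurableSet.iInter fun P => MeasurableSet.iUnion fun p => MeasurableSet.iUnion fun _ => hR p
  · have e : {a | Pt (s a) (c a) S} = ⋃ P : ℕ, ⋂ p : ℕ, ⋂ _ : P < p,
        {a : Ω | p.Prime ∧ p ∈ S ∧ (roughPart p (s a p)).Prime}ᶜ := by
      ext a
      simp only [Set.mem_iUnion, Set.mem_iInter, Set.mem_compl_iff]
      constructor
      · intro h
        have h : Pt (s a) (c a) S := h
        obtain ⟨P, hP⟩ := (h.fin hT).bddAbove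
        exact ⟨P, fun p hp h1 => absurd (hP h1) (not_le.2 hp)⟩
      · rintro ⟨P, hP⟩
        refine ⟨fun h => absurd h hT, fun h => absurd h hT, fun _ => ?_⟩
        refine (Set.finite_le_nat P).subset fun p hp => ?_
        by_contra h
        exact hP p (not_le.1 h) hp
    rw [e]
    exact MeasurableSet.iUnion fun P => MeasurableSet.iInter fun p => MeasurableSet.iInter fun _ =>
      (hR p).compl

/-- the logarithmic Mahler measure is measurable -/
lemma meas_logM {Ω : Type*} [MeasurableSpace Ω] {F : Ω → ℂ[X]}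
    (h : Measurable fun q : Ω × ℝ => (F q.1).eval (circleMap 0 1 q.2)) :
    Measurable fun a => (F a).logMahlerMeasure := by
  have h1 : StronglyMeasurable fun a => ∫ θ in Set.Ioc 0 (2 * π),
      Real.log ‖(F a).eval (circleMap 0 1 θ)‖ :=
    StronglyMeasurable.integral_prod_right (f := fun (a : Ω) (θ : ℝ) =>
      Real.log ‖(F a).eval (circleMap 0 1 θ)‖) (Real.measurable_log.comp h.norm).stronglyMeasurable
  have e : (fun a => (F a).logMahlerMeasure) = fun a => (2 * π)⁻¹ •
      ∫ θ in Set.Ioc 0 (2 * π), Real.log ‖(F a).eval (circleMap 0 1 θ)‖ := by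
    funext a
    rw [logMahlerMeasure_def, Real.circleAverage_def,
      intervalIntegral.integral_of_le Real.two_pi_pos.le]
  rw [e]
  simp only [smul_eq_mul]
  exact h1.measurable.const_mul _

/-- **Fubini for a flow of linear maps.** -/
theorem null_of_flow {V : Type*} [NormedAddCommGroup V] [NormedSpace ℝ V] [FiniteDimensional ℝ V]
    [MeasurableSpace V] [BorelSpace V] (μ : Measure V) [μ.IsAddHaarMeasure] [SFinite μ]
    (D : ℝ → V →ₗ[ℝ] V) (hD : ∀ x, 0 < x → LinearMap.det (D x) ≠ 0)
    (hm : Measurable fun q : V × ℝ => D q.2 q.1) {E : Set V} (hE : MeasurableSet E)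
    (h : ∀ a, ∀ᵐ x : ℝ, 0 < x → D x a ∉ E) : μ E = 0 := by
  have hG : MeasurableSet {q : V × ℝ | 0 < q.2 → D q.2 q.1 ∉ E} := by
    have e : {q : V × ℝ | 0 < q.2 → D q.2 q.1 ∉ E} =
        ({q : V × ℝ | 0 < q.2} ∩ (fun q : V × ℝ => D q.2 q.1) ⁻¹' E)ᶜ := by
      ext q
      simp only [Set.mem_compl_iff, Set.mem_inter_iff, not_and]
      rfl
    rw [e]
    exact ((measurableSet_lt measurable_const measurable_snd).inter (hm hE)).compl
  have h1 : ∀ᵐ a ∂μ, ∀ᵐ x : ℝ, 0 < x → D x a ∉ E := Eventually.of_forall h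
  rw [Measure.ae_ae_comm hG] at h1
  have h2 : ∃ x : ℝ, 0 < x ∧ ∀ᵐ a ∂μ, D x a ∉ E := by
    by_contra hne
    push Not at hne
    rw [ae_iff] at h1
    have h3 : volume (Set.Ioi (0 : ℝ)) = 0 := measure_mono_null (fun x hx => by
      intro h4
      refine hne x hx ?_
      filter_upwards [h4] with a ha
      exact ha hx) h1
    rw [Real.volume_Ioi] at h3
    exact ENNReal.top_ne_zero h3
  obtain ⟨x, hx, h3⟩ := h2
  have h4 : μ ((D x) ⁻¹' E) = 0 := by
    rw [ae_iff] at h3
    refine measure_mono_null (fun a ha => ?_) h3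
    exact not_not.2 ha
  rw [Measure.addHaar_preimage_linearMap μ (hD x hx)] at h4
  rcases mul_eq_zero.1 h4 with h5 | h5
  · exfalso
    rw [ENNReal.ofReal_eq_zero] at h5
    have h6 : 0 < |(LinearMap.det (D x))⁻¹| := abs_pos.2 (inv_ne_zero (hD x hx))
    linarith
  · exact h5

/-- the master statement for flows -/
theorem ae_of_flow {V : Type*} [NormedAddCommGroup V] [NormedSpace ℝ V] [FiniteDimensional ℝ V]
    [MeasurableSpace V] [BorelSpace V] (μ : Measure V) [μ.IsAddHaarMeasure] [SFinite μ]
    (D : ℝ → V →ₗ[ℝ] V) (hD : ∀ x, 0 < x → LinearMap.det (D x) ≠ 0)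
    (hm : Measurable fun q : V × ℝ => D q.2 q.1) {F : V → ℂ[X]} {s : V → ℕ → ℕ}
    (hs : ∀ p : ℕ, p.Prime → Measurable fun a => s a p)
    (hF : Measurable fun q : V × ℝ => (F q.1).eval (circleMap 0 1 q.2)) (S : Set ℕ)
    (h : ∀ a, ∀ᵐ x : ℝ, 0 < x → 0 < (F (D x a)).logMahlerMeasure →
      Pt (s (D x a)) (Real.exp Real.eulerMascheroniConstant / (F (D x a)).logMahlerMeasure) S) :
    ∀ᵐ a ∂μ, 0 < (F a).logMahlerMeasure →
      Pt (s a) (Real.exp Real.eulerMascheroniConstant / (F a).logMahlerMeasure) S := by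
  have hM := meas_logM hF
  have hP := meas_pt hs (measurable_const.div hM :
    Measurable fun a => Real.exp Real.eulerMascheroniConstant / (F a).logMahlerMeasure) S
  rw [ae_iff]
  have hE : MeasurableSet {a : V | ¬ (0 < (F a).logMahlerMeasure →
      Pt (s a) (Real.exp Real.eulerMascheroniConstant / (F a).logMahlerMeasure) S)} := by
    have e : {a : V | ¬ (0 < (F a).logMahlerMeasure →
        Pt (s a) (Real.exp Real.eulerMascheroniConstant / (F a).logMahlerMeasure) S)} =
        {a | 0 < (F a).logMahlerMeasure} ∩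
        {a | Pt (s a) (Real.exp Real.eulerMascheroniConstant / (F a).logMahlerMeasure) S}ᶜ := by
      ext a
      rw [Set.mem_inter_iff, Set.mem_compl_iff]
      exact Classical.not_imp
    rw [e]
    exact (measurableSet_lt measurable_const hM).inter hP.compl
  refine null_of_flow μ D hD hm hE fun a => ?_
  filter_upwards [h a] with x hx hx0 hbad
  exact hbad (hx hx0)

end Pool.Agent.N54.LP
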