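import Mathlib
import Pool.Agent.N54.LP.Meas

set_option autoImplicit false

/-!
# Almost every matrix, almost every polynomial
-/

namespace Pool.Agent.N54.LP

open Finset Filter Topology MeasureTheory Polynomial
open Pool.Agent.TH888.R
open scoped Real

/-! ### Values on the circle -/

lemma lpn_prod (F : ℂ[X]) {p : ℕ} (hp : 0 < p) :
    lpn F p = ‖((X ^ p - 1 : ℂ[X]).roots.map fun a => F.eval a).prod‖ := by
  have hm : (X ^ p - 1 : ℂ[X]).natDegree = p := natDegree_Xp ℂ p
  have hmon : (X ^ p - 1 : ℂ[X]).Monic := by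
    have := monic_X_pow_sub_C (1 : ℂ) hp.ne'
    rwa [C_1] at this
  unfold lpn
  rw [resultant_comm, norm_mul, norm_pow, norm_neg, norm_one, one_pow, one_mul]
  have h2 := resultant_eq_prod_eval (X ^ p - 1 : ℂ[X]) F F.natDegree le_rfl
    (IsAlgClosed.splits _)
  rw [hm] at h2
  rw [h2, hmon.leadingCoeff, one_pow, one_mul]

/-- measurability of the Lehmer-Pierce numbers -/
lemma meas_lpn {Ω : Type*} [MeasurableSpace Ω] {F : Ω → ℂ[X]}
    (h : ∀ z : ℂ, Measurable fun a => (F a).eval z) {p : ℕ} (hp : 0 < p) :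
    Measurable fun a => lpn (F a) p := by
  simp only [lpn_prod _ hp]
  refine Measurable.norm ?_
  generalize (X ^ p - 1 : ℂ[X]).roots = s
  induction s using Multiset.induction with
  | empty => simp only [Multiset.map_zero, Multiset.prod_zero]; exact measurable_const
  | cons a s ih =>
    simp only [Multiset.map_cons, Multiset.prod_cons]
    exact (h a).mul ih

/-! ### Matrices -/

/-- the complex matrix of a real family -/
noncomputable def cm {d : ℕ} (a : Fin d → Fin d → ℝ) : Matrix (Fin d) (Fin d) ℂ :=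
  (Matrix.of a).map Complex.ofRealHom

lemma cm_charpoly {d : ℕ} (a : Fin d → Fin d → ℝ) :
    (cm a).charpoly = (Matrix.of a).charpoly.map Complex.ofRealHom :=
  Matrix.charpoly_map _ _

lemma cm_det {d : ℕ} (a : Fin d → Fin d → ℝ) (p : ℕ) :
    |((Matrix.of a) ^ p - 1).det| = ‖((cm a) ^ p - 1).det‖ := by
  have h1 : (cm a) ^ p - 1 = ((Matrix.of a) ^ p - 1).map Complex.ofRealHom := by
    unfold cm
    have := map_sub (Complex.ofRealHom.mapMatrix (m := Fin d)) ((Matrix.of a) ^ p) 1
    rw [map_pow, map_one] at this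
    exact this.symm
  have h2 : (((Matrix.of a) ^ p - 1).map Complex.ofRealHom).det =
      Complex.ofRealHom (((Matrix.of a) ^ p - 1).det) :=
    (RingHom.map_det Complex.ofRealHom _).symm
  rw [h1, h2]
  change |_| = ‖((_ : ℝ) : ℂ)‖
  rw [Complex.norm_real, Real.norm_eq_abs]

lemma cm_smul {d : ℕ} (x : ℝ) (a : Fin d → Fin d → ℝ) : cm (x • a) = (x : ℂ) • cm a := by
  ext i j
  simp [cm]

/-- **The statements for almost every real matrix.** -/
theorem pt_matrix (d : ℕ) (S : Set ℕ) : ∀ᵐ a : Fin d → Fin d → ℝ,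
    0 < ((Matrix.of a).charpoly.map Complex.ofRealHom).logMahlerMeasure →
      Pt (fun p => ⌊|((Matrix.of a) ^ p - 1).det|⌋₊) (Real.exp Real.eulerMascheroniConstant /
        ((Matrix.of a).charpoly.map Complex.ofRealHom).logMahlerMeasure) S := by
  simp only [← cm_charpoly, cm_det]
  have hev : Continuous fun q : (Fin d → Fin d → ℝ) × ℂ => (cm q.1).charpoly.eval q.2 := by
    have e : (fun q : (Fin d → Fin d → ℝ) × ℂ => (cm q.1).charpoly.eval q.2) =
        fun q => (Matrix.scalar (Fin d) q.2 - cm q.1).det := by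
      funext q
      rw [Matrix.eval_charpoly]
    rw [e]
    refine Continuous.matrix_det (continuous_matrix fun i j => ?_)
    simp only [cm, Matrix.scalar_apply, Matrix.sub_apply, Matrix.diagonal_apply, Matrix.map_apply,
      Matrix.of_apply, Complex.ofRealHom_eq_coe]
    split_ifs <;> fun_prop
  refine ae_of_flow volume (fun x => x • LinearMap.id) ?_ ?_ (F := fun a => (cm a).charpoly)
    (s := fun a p => ⌊‖((cm a) ^ p - 1).det‖⌋₊) ?_ ?_ S ?_
  · intro x hx
    rw [LinearMap.det_smul, LinearMap.det_id, mul_one]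
    exact pow_ne_zero _ hx.ne'
  · simp only [LinearMap.smul_apply, LinearMap.id_apply]
    fun_prop
  · intro p hp
    simp only [norm_det_pow_sub_one]
    refine (meas_lpn (F := fun a => (cm a).charpoly) (fun z => ?_) hp.pos).nat_floor
    exact (hev.comp (continuous_id.prodMk continuous_const)).measurable
  · refine Continuous.measurable ?_
    exact hev.comp (continuous_fst.prodMk ((continuous_circleMap 0 1).comp continuous_snd))
  · intro a
    filter_upwards [pt_smul (cm a) S] with x hx hx0 hm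
    simp only [LinearMap.smul_apply, LinearMap.id_apply, cm_smul] at hm ⊢
    exact hx hx0 hm

/-! ### Polynomials -/

/-- the diagonal flow -/
noncomputable def dg {ι : Type*} (w : ι → ℕ) (x : ℝ) : (ι → ℝ) →ₗ[ℝ] (ι → ℝ) where
  toFun a i := x ^ w i * a i
  map_add' a b := by ext i; simp [mul_add]
  map_smul' c a := by ext i; simp; ring

lemma dg_det {ι : Type*} [Fintype ι] (w : ι → ℕ) {x : ℝ} (hx : 0 < x) : LinearMap.det (dg w x) ≠ 0 := by
  classical
  have h1 : (dg w x⁻¹) ∘ₗ (dg w x) = LinearMap.id := by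
    ext a i
    simp only [dg, LinearMap.comp_apply, LinearMap.coe_mk, AddHom.coe_mk, LinearMap.id_apply]
    rw [← mul_assoc, ← mul_pow, inv_mul_cancel₀ hx.ne', one_pow, one_mul]
  have h2 := congrArg LinearMap.det h1
  rw [LinearMap.det_comp, LinearMap.det_id] at h2
  intro h3
  rw [h3, mul_zero] at h2
  exact zero_ne_one h2

/-- the polynomial with coefficient family `c` -/
noncomputable def pl {d : ℕ} (c : Fin (d + 1) → ℝ) : ℝ[X] := ∑ i, C (c i) * X ^ (i : ℕ)

/-- the monic polynomial with lower coefficients `c` -/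
noncomputable def ml {d : ℕ} (c : Fin d → ℝ) : ℝ[X] := X ^ d + ∑ i, C (c i) * X ^ (i : ℕ)

lemma coeff_sum {d : ℕ} (c : Fin d → ℝ) (n : ℕ) :
    (∑ i, C (c i) * X ^ (i : ℕ)).coeff n = if h : n < d then c ⟨n, h⟩ else 0 := by
  rw [finsetSum_coeff]
  simp only [coeff_C_mul, coeff_X_pow, mul_ite, mul_one, mul_zero]
  split_ifs with h
  · rw [Finset.sum_eq_single (⟨n, h⟩ : Fin d)]
    · simp
    · intro b _ hb
      rw [if_neg]
      intro h2
      exact hb (Fin.ext h2.symm)
    · simp
  · refine Finset.sum_eq_zero fun i _ => ?_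
    rw [if_neg]
    have := i.2
    omega

lemma pl_natDegree {d : ℕ} (c : Fin (d + 1) → ℝ) : (pl c).natDegree ≤ d := by
  unfold pl
  refine natDegree_le_iff_coeff_eq_zero.2 fun n hn => ?_
  rw [coeff_sum, dif_neg (by omega)]

lemma pl_dg {d : ℕ} (c : Fin (d + 1) → ℝ) (x : ℝ) :
    (pl (dg (fun i : Fin (d + 1) => 1 + d - (i : ℕ)) x c)).map Complex.ofRealHom =
      sc ((pl c).map Complex.ofRealHom) (1 + d - (pl c).natDegree) x := by
  have hd := pl_natDegree c
  ext n
  unfold sc
  rw [coeff_map, coeff_C_mul, coeff_scaleRoots, coeff_map, natDegree_map]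
  by_cases h : n < d + 1
  · by_cases h2 : n ≤ (pl c).natDegree
    · have e1 : (pl (dg (fun i : Fin (d + 1) => 1 + d - (i : ℕ)) x c)).coeff n =
          x ^ (1 + d - n) * (pl c).coeff n := by
        unfold pl
        rw [coeff_sum, coeff_sum, dif_pos h, dif_pos h]
        rfl
      rw [e1, map_mul, map_pow]
      have e2 : 1 + d - n = (1 + d - (pl c).natDegree) + ((pl c).natDegree - n) := by omega
      rw [e2, pow_add]
      simp only [Complex.ofRealHom_eq_coe]
      ring
    · have e1 : (pl c).coeff n = 0 := coeff_eq_zero_of_natDegree_lt (not_le.1 h2)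
      have e2 : (pl (dg (fun i : Fin (d + 1) => 1 + d - (i : ℕ)) x c)).coeff n =
          x ^ (1 + d - n) * (pl c).coeff n := by
        unfold pl
        rw [coeff_sum, coeff_sum, dif_pos h, dif_pos h]
        rfl
      rw [e2, e1]
      simp
  · have e1 : (pl c).coeff n = 0 := coeff_eq_zero_of_natDegree_lt (by omega)
    have e2 : (pl (dg (fun i : Fin (d + 1) => 1 + d - (i : ℕ)) x c)).coeff n = 0 :=
      coeff_eq_zero_of_natDegree_lt (lt_of_le_of_lt (pl_natDegree _) (by omega))
    rw [e1, e2]
    simp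

lemma ml_monic {d : ℕ} (c : Fin d → ℝ) : (ml c).Monic := by
  unfold ml
  refine monic_X_pow_add ?_
  refine (degree_lt_iff_coeff_zero _ _).2 fun n hn => ?_
  rw [coeff_sum, dif_neg (by omega)]

lemma ml_natDegree {d : ℕ} (c : Fin d → ℝ) : (ml c).natDegree = d := by
  unfold ml
  have h1 : (∑ i, C (c i) * X ^ (i : ℕ)).degree < (d : WithBot ℕ) := by
    refine (degree_lt_iff_coeff_zero _ _).2 fun n hn => ?_
    rw [coeff_sum, dif_neg (by omega)]
  rw [natDegree_add_eq_left_of_degree_lt, natDegree_X_pow]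
  rwa [degree_X_pow]

lemma ml_dg {d : ℕ} (c : Fin d → ℝ) (x : ℝ) :
    (ml (dg (fun i : Fin d => d - (i : ℕ)) x c)).map Complex.ofRealHom =
      sc ((ml c).map Complex.ofRealHom) 0 x := by
  ext n
  unfold sc
  rw [coeff_map, coeff_C_mul, coeff_scaleRoots, coeff_map, natDegree_map, ml_natDegree, pow_zero,
    one_mul]
  unfold ml
  rw [coeff_add, coeff_add, coeff_sum, coeff_sum, coeff_X_pow]
  rcases lt_trichotomy n d with h | h | h
  · rw [if_neg h.ne, dif_pos h, dif_pos h, zero_add, zero_add]
    simp only [dg, LinearMap.coe_mk, AddHom.coe_mk, map_mul, map_pow, Complex.ofRealHom_eq_coe]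
    ring
  · subst h
    simp
  · rw [if_neg h.ne', dif_neg (by omega), dif_neg (by omega)]
    simp

lemma cont_eval {d : ℕ} : Continuous fun q : (Fin d → ℝ) × ℂ =>
    ((∑ i, C (q.1 i) * X ^ (i : ℕ) : ℝ[X]).map Complex.ofRealHom).eval q.2 := by
  have e : (fun q : (Fin d → ℝ) × ℂ =>
      ((∑ i, C (q.1 i) * X ^ (i : ℕ) : ℝ[X]).map Complex.ofRealHom).eval q.2) =
      fun q => ∑ i : Fin d, ((q.1 i : ℝ) : ℂ) * q.2 ^ (i : ℕ) := by
    funext q
    rw [Polynomial.map_sum, eval_finsetSum]
    refine Finset.sum_congr rfl fun i _ => ?_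
    simp
  rw [e]
  fun_prop

/-- **The statements for almost every real polynomial.** -/
theorem pt_poly (d : ℕ) (S : Set ℕ) : ∀ᵐ c : Fin (d + 1) → ℝ,
    0 < ((pl c).map Complex.ofRealHom).logMahlerMeasure →
      Pt (fun p => ⌊|resultant (pl c) (X ^ p - 1)|⌋₊) (Real.exp Real.eulerMascheroniConstant /
        ((pl c).map Complex.ofRealHom).logMahlerMeasure) S := by
  simp only [ofReal_map_res]
  refine ae_of_flow volume (dg fun i : Fin (d + 1) => 1 + d - (i : ℕ)) (fun x hx => dg_det _ hx) ?_
    (F := fun c => (pl c).map Complex.ofRealHom)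
    (s := fun c p => ⌊lpn ((pl c).map Complex.ofRealHom) p⌋₊) ?_ ?_ S ?_
  · refine measurable_pi_lambda _ fun i => ?_
    simp only [dg, LinearMap.coe_mk, AddHom.coe_mk]
    fun_prop
  · intro p hp
    refine (meas_lpn (fun z => ?_) hp.pos).nat_floor
    exact (cont_eval.comp (continuous_id.prodMk continuous_const)).measurable
  · refine Continuous.measurable ?_
    exact cont_eval.comp (continuous_fst.prodMk ((continuous_circleMap 0 1).comp continuous_snd))
  · intro c
    by_cases hc : (pl c).map Complex.ofRealHom = 0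
    · filter_upwards with x hx hm
      exfalso
      rw [pl_dg c x, hc] at hm
      unfold sc at hm
      rw [zero_scaleRoots, mul_zero, logMahlerMeasure_zero] at hm
      exact lt_irrefl _ hm
    · have hd := pl_natDegree c
      filter_upwards [pt_sc _ hc (1 + d - (pl c).natDegree) (Or.inl (by omega)) S] with x hx hx0 hm
      simp only [pl_dg c x] at hm ⊢
      exact hx hx0 hm

/-- **The statements for almost every monic real polynomial.** -/
theorem pt_monic (d : ℕ) (S : Set ℕ) : ∀ᵐ c : Fin d → ℝ,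
    0 < ((ml c).map Complex.ofRealHom).logMahlerMeasure →
      Pt (fun p => ⌊|resultant (ml c) (X ^ p - 1)|⌋₊) (Real.exp Real.eulerMascheroniConstant /
        ((ml c).map Complex.ofRealHom).logMahlerMeasure) S := by
  simp only [ofReal_map_res]
  have hcont : Continuous fun q : (Fin d → ℝ) × ℂ => ((ml q.1).map Complex.ofRealHom).eval q.2 := by
    unfold ml
    have e : (fun q : (Fin d → ℝ) × ℂ => (((X ^ d + ∑ i : Fin d, C (q.1 i) * X ^ (i : ℕ)) : ℝ[X]).map
        Complex.ofRealHom).eval q.2) = fun q => q.2 ^ d +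
        ((∑ i : Fin d, C (q.1 i) * X ^ (i : ℕ) : ℝ[X]).map Complex.ofRealHom).eval q.2 := by
      funext q
      rw [Polynomial.map_add, eval_add]
      simp
    rw [e]
    exact (continuous_snd.pow d).add cont_eval
  refine ae_of_flow volume (dg fun i : Fin d => d - (i : ℕ)) (fun x hx => dg_det _ hx) ?_
    (F := fun c => (ml c).map Complex.ofRealHom)
    (s := fun c p => ⌊lpn ((ml c).map Complex.ofRealHom) p⌋₊) ?_ ?_ S ?_
  · refine measurable_pi_lambda _ fun i => ?_
    simp only [dg, LinearMap.coe_mk, AddHom.coe_mk]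
    fun_prop
  · intro p hp
    refine (meas_lpn (fun z => ?_) hp.pos).nat_floor
    exact (hcont.comp (continuous_id.prodMk continuous_const)).measurable
  · refine Continuous.measurable ?_
    exact hcont.comp (continuous_fst.prodMk ((continuous_circleMap 0 1).comp continuous_snd))
  · intro c
    have hmon : ((ml c).map Complex.ofRealHom).Monic := (ml_monic c).map _
    filter_upwards [pt_sc _ hmon.ne_zero 0 (Or.inr (by rw [hmon.leadingCoeff, norm_one])) S]
      with x hx hx0 hm
    simp only [ml_dg c x] at hm ⊢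
    exact hx hx0 hm

end Pool.Agent.N54.LP
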